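import Pool.Agent.W_MP_b13100_lc.Pres

/-! The gadget: from a perfect group `A` we build `(A × A) ⋊ Q₈`, which is integrable if and only if
`A` is trivial. -/

set_option autoImplicit false

namespace Pool.Agent.W_MP_b13100_lc

universe u

open QuaternionGroup
open scoped commutatorElement

namespace Gadget

theorem q8_comm : ∀ x y : QuaternionGroup 2, ⁅x, y⁆ = 1 ∨ ⁅x, y⁆ = a 2 := by
  simp only [commutatorElement_def]
  decide

section

variable {G : Type} [Group G] (A : Subgroup G) (i j : G)

/-- The subgroup `A A^j`. -/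
def nn (hj : ∀ a ∈ A, ∀ b ∈ A, a * (j * b * j⁻¹) = (j * b * j⁻¹) * a) : Subgroup G where
  carrier := {g | ∃ a ∈ A, ∃ b ∈ A, g = a * (j * b * j⁻¹)}
  mul_mem' := by
    rintro _ _ ⟨a, ha, b, hb, rfl⟩ ⟨a', ha', b', hb', rfl⟩
    refine ⟨a * a', A.mul_mem ha ha', b * b', A.mul_mem hb hb', ?_⟩
    calc a * (j * b * j⁻¹) * (a' * (j * b' * j⁻¹)) = a * ((j * b * j⁻¹) * a') * (j * b' * j⁻¹) := by
          group
      _ = a * (a' * (j * b * j⁻¹)) * (j * b' * j⁻¹) := by rw [hj a' ha' b hb]
      _ = _ := by group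
  one_mem' := ⟨1, A.one_mem, 1, A.one_mem, by group⟩
  inv_mem' := by
    rintro _ ⟨a, ha, b, hb, rfl⟩
    refine ⟨a⁻¹, A.inv_mem ha, b⁻¹, A.inv_mem hb, ?_⟩
    rw [hj a⁻¹ (A.inv_mem ha) b⁻¹ (A.inv_mem hb)]
    group

theorem integrable_core (hA : ⁅A, A⁆ = A) (hne : A ≠ ⊥) (hi : ∀ a ∈ A, a * i = i * a)
    (hj : ∀ a ∈ A, ∀ b ∈ A, a * (j * b * j⁻¹) = (j * b * j⁻¹) * a) (hij : i * i = j * j)
    (hji : j⁻¹ * i * j = i⁻¹)
    (hgen : ∀ S : Subgroup G, A ≤ S → i ∈ S → j ∈ S → S = ⊤)
    (π : G →* QuaternionGroup 2) (hπA : ∀ a ∈ A, π a = 1) (hπi : π i = QuaternionGroup.a 1) :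
    ∀ α : MulAut G, (π (α i) = π i ∨ π (α i) = (π i)⁻¹) ∧
      (∀ β : MulAut G, ∀ l : ℤ, π (β i) = π i ^ l → π ((α * β) i) = π (α i) ^ l) := by
  set N := nn A j hj with hN
  have memN : ∀ g, g ∈ N ↔ ∃ a ∈ A, ∃ b ∈ A, g = a * (j * b * j⁻¹) := fun g => Iff.rfl
  have hAN : A ≤ N := fun x hx => (memN x).2 ⟨x, hx, 1, A.one_mem, by group⟩
  have hBN : ∀ b ∈ A, j * b * j⁻¹ ∈ N := fun b hb => (memN _).2 ⟨1, A.one_mem, b, hb, by group⟩
  have e1 : i * j = j * i⁻¹ := by rw [← hji]; group
  have e2 : j * i = i⁻¹ * j := by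
    calc j * i = i⁻¹ * (i * j) * i := by group
      _ = i⁻¹ * (j * i⁻¹) * i := by rw [e1]
      _ = _ := by group
  have e3 : i * i * (i * i) = 1 := by
    have h1 : j⁻¹ * (i * i) * j = i⁻¹ * i⁻¹ := by
      calc j⁻¹ * (i * i) * j = (j⁻¹ * i * j) * (j⁻¹ * i * j) := by group
        _ = _ := by rw [hji]
    rw [hij] at h1
    have h2 : j * j = i⁻¹ * i⁻¹ := by rw [← h1]; group
    rw [← hij] at h2
    calc i * i * (i * i) = i⁻¹ * i⁻¹ * (i * i) := by rw [← h2]
      _ = 1 := by group
  have hπN : ∀ g ∈ N, π g = 1 := by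
    intro g hg
    obtain ⟨a, ha, b, hb, rfl⟩ := (memN g).1 hg
    simp [hπA a ha, hπA b hb]
  -- `i` commutes with `N`
  have hiN : ∀ g ∈ N, g * i = i * g := by
    intro g hg
    obtain ⟨a, ha, b, hb, rfl⟩ := (memN g).1 hg
    have h1 : j * b * j⁻¹ * i = i * (j * b * j⁻¹) := by
      have e4 : j⁻¹ * i = i⁻¹ * j⁻¹ := by
        calc j⁻¹ * i = j⁻¹ * i * j * j⁻¹ := by group
          _ = _ := by rw [hji]
      have e5 : b * i⁻¹ = i⁻¹ * b := by
        have := hi b hb
        calc b * i⁻¹ = i⁻¹ * (i * b) * i⁻¹ := by group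
          _ = i⁻¹ * (b * i) * i⁻¹ := by rw [this]
          _ = _ := by group
      calc j * b * j⁻¹ * i = j * b * (j⁻¹ * i) := by group
        _ = j * (b * i⁻¹) * j⁻¹ := by rw [e4]; group
        _ = (j * i⁻¹) * b * j⁻¹ := by rw [e5]; group
        _ = _ := by rw [← e1]; group
    calc a * (j * b * j⁻¹) * i = a * (j * b * j⁻¹ * i) := by group
      _ = (a * i) * (j * b * j⁻¹) := by rw [h1]; group
      _ = _ := by rw [hi a ha]; group
  have hjN : ∀ g ∈ N, j * g * j⁻¹ ∈ N := by
    intro g hg
    obtain ⟨a, ha, b, hb, rfl⟩ := (memN g).1 hg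
    have h1 : j * (j * b * j⁻¹) * j⁻¹ = b := by
      have h2 : j * j * b = b * (j * j) := by
        rw [← hij]
        calc i * i * b = i * (i * b) := by group
          _ = i * (b * i) := by rw [hi b hb]
          _ = (i * b) * i := by group
          _ = (b * i) * i := by rw [hi b hb]
          _ = _ := by group
      calc j * (j * b * j⁻¹) * j⁻¹ = (j * j * b) * (j * j)⁻¹ := by group
        _ = b := by rw [h2]; group
    have h3 : j * (a * (j * b * j⁻¹)) * j⁻¹ = (j * a * j⁻¹) * b := by
      calc j * (a * (j * b * j⁻¹)) * j⁻¹ = (j * a * j⁻¹) * (j * (j * b * j⁻¹) * j⁻¹) := by group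
        _ = _ := by rw [h1]
    rw [h3]
    exact N.mul_mem (hBN a ha) (hAN hb)
  have hjN' : ∀ g ∈ N, j⁻¹ * g * j ∈ N := by
    intro g hg
    have h1 := hjN g hg
    have h2 := hiN _ h1
    have h3 : j⁻¹ * g * j = j * g * j⁻¹ := by
      have h4 : (j * g * j⁻¹) * (i * i) = (i * i) * (j * g * j⁻¹) := by
        calc (j * g * j⁻¹) * (i * i) = (j * g * j⁻¹ * i) * i := by group
          _ = i * (j * g * j⁻¹) * i := by rw [h2]
          _ = i * (j * g * j⁻¹ * i) := by group
          _ = i * (i * (j * g * j⁻¹)) := by rw [h2]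
          _ = _ := by group
      rw [hij] at h4
      calc j⁻¹ * g * j = (j * j)⁻¹ * ((j * g * j⁻¹) * (j * j)) := by group
        _ = _ := by rw [h4]; group
    rw [h3]; exact h1
  have hNn : N.Normal := by
    rw [← Subgroup.normalizer_eq_top_iff]
    apply hgen
    · intro x hx
      rw [Subgroup.mem_normalizer_iff]
      intro h
      constructor
      · intro hh
        exact N.mul_mem (N.mul_mem (hAN hx) hh) (N.inv_mem (hAN hx))
      · intro hh
        have := N.mul_mem (N.mul_mem (N.inv_mem (hAN hx)) hh) (hAN hx)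
        have e : x⁻¹ * (x * h * x⁻¹) * x = h := by group
        rwa [e] at this
    · rw [Subgroup.mem_normalizer_iff]
      intro h
      constructor
      · intro hh
        rw [← hiN h hh]
        have e : h * i * i⁻¹ = h := by group
        rwa [e]
      · intro hh
        have h1 := hiN _ hh
        have h2 : h = i * h * i⁻¹ := by
          calc h = i⁻¹ * (i * h * i⁻¹ * i) := by group
            _ = _ := by rw [h1]; group
        rw [h2]; exact hh
    · rw [Subgroup.mem_normalizer_iff]
      intro h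
      constructor
      · exact hjN h
      · intro hh
        have := hjN' _ hh
        have e : j⁻¹ * (j * h * j⁻¹) * j = h := by group
        rwa [e] at this
  have hji' : ∀ e : ℤ, j * i ^ e = i ^ (-e) * j := by
    intro e
    have h1 : SemiconjBy j i i⁻¹ := e2
    have := h1.zpow_right e
    rw [SemiconjBy, inv_zpow', ] at this
    exact this
  have hi4 : i ^ (4 : ℤ) = 1 := by
    rw [show (4 : ℤ) = 1 + 1 + (1 + 1) by norm_num, zpow_add, zpow_add, zpow_one]
    exact e3
  have hjj : j * j = i ^ (2 : ℤ) := by rw [← hij, zpow_two]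
  -- structure
  have hstr : ∀ g : G, ∃ n ∈ N, ∃ e : ℤ, g = n * i ^ e ∨ g = n * i ^ e * j := by
    let S : Subgroup G :=
      { carrier := {g | ∃ n ∈ N, ∃ e : ℤ, g = n * i ^ e ∨ g = n * i ^ e * j}
        one_mem' := ⟨1, N.one_mem, 0, Or.inl (by simp)⟩
        mul_mem' := by
          rintro x y ⟨n, hn, e, hx⟩ ⟨n', hn', e', hy⟩
          rcases hx with rfl | rfl
          · rcases hy with rfl | rfl
            · refine ⟨n * (i ^ e * n' * (i ^ e)⁻¹), N.mul_mem hn (hNn.conj_mem _ hn' _), e + e', Or.inl ?_⟩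
              rw [zpow_add]; group
            · refine ⟨n * (i ^ e * n' * (i ^ e)⁻¹), N.mul_mem hn (hNn.conj_mem _ hn' _), e + e', Or.inr ?_⟩
              rw [zpow_add]; group
          · rcases hy with rfl | rfl
            · refine ⟨n * ((i ^ e * j) * n' * (i ^ e * j)⁻¹), N.mul_mem hn (hNn.conj_mem _ hn' _),
                e - e', Or.inr ?_⟩
              calc n * i ^ e * j * (n' * i ^ e') =
                  n * ((i ^ e * j) * n' * (i ^ e * j)⁻¹) * i ^ e * (j * i ^ e') := by group
                _ = n * ((i ^ e * j) * n' * (i ^ e * j)⁻¹) * i ^ e * (i ^ (-e') * j) := by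
                    rw [hji']
                _ = _ := by rw [sub_eq_add_neg, zpow_add]; group
            · refine ⟨n * ((i ^ e * j) * n' * (i ^ e * j)⁻¹), N.mul_mem hn (hNn.conj_mem _ hn' _),
                e - e' + 2, Or.inl ?_⟩
              calc n * i ^ e * j * (n' * i ^ e' * j) =
                  n * ((i ^ e * j) * n' * (i ^ e * j)⁻¹) * i ^ e * (j * i ^ e') * j := by group
                _ = n * ((i ^ e * j) * n' * (i ^ e * j)⁻¹) * i ^ e * i ^ (-e') * (j * j) := by
                    rw [hji']; group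
                _ = _ := by rw [hjj, zpow_add, sub_eq_add_neg, zpow_add]; group
        inv_mem' := by
          rintro x ⟨n, hn, e, hx⟩
          rcases hx with rfl | rfl
          · refine ⟨(i ^ e)⁻¹ * n⁻¹ * i ^ e, by
              have := hNn.conj_mem _ (N.inv_mem hn) (i ^ e)⁻¹
              rwa [inv_inv] at this, -e, Or.inl ?_⟩
            rw [zpow_neg]; group
          · refine ⟨(i ^ e * j)⁻¹ * n⁻¹ * (i ^ e * j), by
              have := hNn.conj_mem _ (N.inv_mem hn) (i ^ e * j)⁻¹
              rwa [inv_inv] at this, e - 2, Or.inr ?_⟩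
            have h1 : (i ^ e * j)⁻¹ = i ^ (e - 2) * j := by
              rw [inv_eq_iff_mul_eq_one]
              calc i ^ e * j * (i ^ (e - 2) * j) = i ^ e * (j * i ^ (e - 2)) * j := by group
                _ = i ^ e * i ^ (-(e - 2)) * (j * j) := by rw [hji']; group
                _ = i ^ (e + -(e - 2) + 2) := by rw [hjj, zpow_add, zpow_add]
                _ = 1 := by
                  rw [show e + -(e - 2) + 2 = 4 by ring, hi4]
            calc (n * i ^ e * j)⁻¹ = (i ^ e * j)⁻¹ * n⁻¹ * (i ^ e * j) * (i ^ e * j)⁻¹ := by group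
              _ = _ := by rw [h1]; group }
    have hS : S = ⊤ := by
      apply hgen
      · intro x hx
        exact ⟨x, hAN hx, 0, Or.inl (by simp)⟩
      · exact ⟨1, N.one_mem, 1, Or.inl (by simp)⟩
      · exact ⟨1, N.one_mem, 0, Or.inr (by simp)⟩
    intro g
    have : g ∈ S := by rw [hS]; trivial
    exact this
  have hord : ∀ e : ℤ, π i ^ e = 1 → i ^ e = 1 := by
    intro e he
    have h1 : orderOf (π i) = 4 := by
      rw [hπi]; exact QuaternionGroup.orderOf_a_one
    have h2 : ((4 : ℕ) : ℤ) ∣ e := by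
      rw [← h1]; exact orderOf_dvd_iff_zpow_eq_one.2 he
    obtain ⟨k, rfl⟩ := h2
    rw [zpow_mul]
    have : i ^ ((4 : ℕ) : ℤ) = 1 := hi4
    rw [this, one_zpow]
  have hπi2 : π i ^ (2 : ℤ) ≠ 1 := by
    rw [hπi]; decide
  -- the kernel of `π`
  have hker : ∀ g, π g = 1 ↔ g ∈ N := by
    intro g
    refine ⟨fun h => ?_, hπN g⟩
    obtain ⟨n, hn, e, rfl | rfl⟩ := hstr g
    · rw [map_mul, hπN n hn, one_mul, map_zpow] at h
      rw [hord e h, mul_one]; exact hn
    · exfalso
      rw [mul_assoc, map_mul, hπN n hn, one_mul] at h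
      have h2 : π ((i ^ e * j) * (i ^ e * j)) = 1 := by rw [map_mul, h, one_mul]
      have h3 : (i ^ e * j) * (i ^ e * j) = i ^ (2 : ℤ) := by
        calc (i ^ e * j) * (i ^ e * j) = i ^ e * (j * i ^ e) * j := by group
          _ = i ^ e * i ^ (-e) * (j * j) := by rw [hji']; group
          _ = _ := by rw [hjj, zpow_neg]; group
      rw [h3, map_zpow] at h2
      exact hπi2 h2
  -- `N` is the second derived subgroup
  have hND : N = derivedSeries G 2 := by
    have hc : ∀ K : Subgroup G, ⁅K, K⁆ = K → K ≤ derivedSeries G 2 := by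
      intro K hK
      have h1 : K ≤ derivedSeries G 1 := by
        rw [derivedSeries_succ, derivedSeries_zero, ← hK]
        exact Subgroup.commutator_mono le_top le_top
      rw [derivedSeries_succ, ← hK]
      exact Subgroup.commutator_mono h1 h1
    apply le_antisymm
    · intro g hg
      obtain ⟨a, ha, b, hb, rfl⟩ := (memN g).1 hg
      have hAD := hc A hA
      exact Subgroup.mul_mem _ (hAD ha) ((inferInstance : (derivedSeries G 2).Normal).conj_mem _ (hAD hb) _)
    · intro g hg
      rw [← hker]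
      have h1 : derivedSeries G 1 ≤ (Subgroup.zpowers (QuaternionGroup.a 2 : QuaternionGroup 2)).comap π := by
        rw [derivedSeries_succ, derivedSeries_zero, Subgroup.commutator_le]
        intro x _ y _
        rw [Subgroup.mem_comap, map_commutatorElement]
        rcases q8_comm (π x) (π y) with h | h
        · rw [h]; exact Subgroup.one_mem _
        · rw [h]; exact Subgroup.mem_zpowers _
      have h2 : derivedSeries G 2 ≤ π.ker := by
        rw [derivedSeries_succ, Subgroup.commutator_le]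
        intro x hx y hy
        rw [MonoidHom.mem_ker, map_commutatorElement, commutatorElement_eq_one_iff_mul_comm]
        obtain ⟨k, hk⟩ := h1 hx
        obtain ⟨l, hl⟩ := h1 hy
        simp only at hk hl
        rw [← hk, ← hl, ← zpow_add, ← zpow_add, add_comm]
      exact h2 hg
  have hαN : ∀ (α : MulAut G) (g : G), g ∈ N → α g ∈ N := by
    intro α g hg
    rw [hND] at hg ⊢
    have := map_derivedSeries_le_derivedSeries (α : G ≃* G).toMonoidHom 2
    exact this ⟨g, hg, rfl⟩
  -- the centralizer of `N`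
  have hcent : ∀ g : G, (∀ n ∈ N, n * g = g * n) → ∃ n ∈ N, ∃ e : ℤ, g = n * i ^ e := by
    intro g hg
    obtain ⟨n, hn, e, rfl | rfl⟩ := hstr g
    · exact ⟨n, hn, e, rfl⟩
    · exfalso
      apply hne
      -- every element of `A` lies in `A^j`
      have h1 : ∀ x ∈ A, ∃ y ∈ A, x = j * y * j⁻¹ := by
        intro x hx
        have h2 := hg x (hAN hx)
        have hie : ∀ m ∈ N, m * i ^ e = i ^ e * m := by
          intro m hm
          have h3 : Commute m i := hiN m hm
          exact (h3.zpow_right e).eq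
        have h4 : j * x * j⁻¹ ∈ N := hjN x (hAN hx)
        have h5 : x = n * (j * x * j⁻¹) * n⁻¹ := by
          calc x = (x * (n * i ^ e * j)) * (n * i ^ e * j)⁻¹ := by group
            _ = (n * i ^ e * j) * x * (n * i ^ e * j)⁻¹ := by rw [h2]
            _ = n * (i ^ e * (j * x * j⁻¹)) * (i ^ e)⁻¹ * n⁻¹ := by group
            _ = n * ((j * x * j⁻¹) * i ^ e) * (i ^ e)⁻¹ * n⁻¹ := by rw [hie _ h4]
            _ = _ := by group
        obtain ⟨a, ha, b, hb, rfl⟩ := (memN n).1 hn
        refine ⟨b * x * b⁻¹, A.mul_mem (A.mul_mem hb hx) (A.inv_mem hb), ?_⟩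
        have h6 : b * x * b⁻¹ ∈ A := A.mul_mem (A.mul_mem hb hx) (A.inv_mem hb)
        calc x = a * (j * b * j⁻¹) * (j * x * j⁻¹) * (a * (j * b * j⁻¹))⁻¹ := h5
          _ = a * (j * (b * x * b⁻¹) * j⁻¹) * a⁻¹ := by group
          _ = (j * (b * x * b⁻¹) * j⁻¹) * a * a⁻¹ := by rw [hj a ha _ h6]
          _ = _ := by group
      have h7 : ∀ x ∈ A, ∀ y ∈ A, x * y = y * x := by
        intro x hx y hy
        obtain ⟨z, hz, rfl⟩ := h1 y hy
        exact hj x hx z hz
      rw [← hA, eq_bot_iff, Subgroup.commutator_le]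
      intro x hx y hy
      rw [Subgroup.mem_bot, commutatorElement_eq_one_iff_mul_comm]
      exact h7 x hx y hy
  have hαi : ∀ α : MulAut G, ∃ n ∈ N, ∃ e : ℤ, α i = n * i ^ e := by
    intro α
    apply hcent
    intro n hn
    have h1 := hiN _ (hαN α⁻¹ n hn)
    have h2 := congrArg α h1
    rw [map_mul, map_mul] at h2
    have h3 : α (α⁻¹ n) = n := MulAut.apply_inv_self _ _ _
    rw [h3] at h2
    exact h2
  intro α
  refine ⟨?_, ?_⟩
  · obtain ⟨n, hn, e, he⟩ := hαi α
    have h1 : π (α i) = π i ^ e := by rw [he, map_mul, hπN n hn, one_mul, map_zpow]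
    rw [h1]
    rcases Int.even_or_odd' e with ⟨k, rfl | rfl⟩
    · exfalso
      have h2 : π (α (i ^ (2 : ℤ))) = 1 := by
        rw [map_zpow, map_zpow, h1, ← zpow_mul, show 2 * k * 2 = 4 * k by ring, zpow_mul]
        have : π i ^ (4 : ℤ) = 1 := by rw [← map_zpow, hi4, map_one]
        rw [this, one_zpow]
      have h3 := (hker _).1 h2
      have h4 := hαN α⁻¹ _ h3
      have h5 : α⁻¹ (α (i ^ (2 : ℤ))) = i ^ (2 : ℤ) := MulAut.inv_apply_self _ _ _
      rw [h5, ← hker, map_zpow] at h4
      exact hπi2 h4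
    · have h4 : π i ^ (4 : ℤ) = 1 := by rw [← map_zpow, hi4, map_one]
      rcases Int.even_or_odd' k with ⟨l, rfl | rfl⟩
      · left
        rw [show 2 * (2 * l) + 1 = 4 * l + 1 by ring, zpow_add, zpow_mul, h4, one_zpow, one_mul,
          zpow_one]
      · right
        rw [show 2 * (2 * l + 1) + 1 = 4 * (l + 1) + -1 by ring, zpow_add, zpow_mul, h4, one_zpow,
          one_mul, zpow_neg_one]
  · intro β l hl
    have h1 : β i * (i ^ l)⁻¹ ∈ N := by
      rw [← hker, map_mul, map_inv, map_zpow, hl, mul_inv_cancel]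
    have h2 : β i = (β i * (i ^ l)⁻¹) * i ^ l := by group
    rw [MulAut.mul_apply, h2, map_mul, map_mul, hπN _ (hαN α _ h1), one_mul, map_zpow, map_zpow]

theorem not_integrable (hA : ⁅A, A⁆ = A) (hne : A ≠ ⊥) (hi : ∀ a ∈ A, a * i = i * a)
    (hj : ∀ a ∈ A, ∀ b ∈ A, a * (j * b * j⁻¹) = (j * b * j⁻¹) * a) (hij : i * i = j * j)
    (hji : j⁻¹ * i * j = i⁻¹)
    (hgen : ∀ S : Subgroup G, A ≤ S → i ∈ S → j ∈ S → S = ⊤)
    (π : G →* QuaternionGroup 2) (hπA : ∀ a ∈ A, π a = 1) (hπi : π i = QuaternionGroup.a 1) :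
    ¬ Integrable.{u} G := by
  rintro ⟨H, _, ⟨e⟩⟩
  have core := integrable_core A i j hA hne hi hj hij hji hgen π hπA hπi
  let θ : H →* MulAut G :=
    (MulAut.congr e).toMonoidHom.comp (MulAut.conjNormal (H := commutator H))
  have hθ : ∀ (c : commutator H) (g : G), θ c g = e c * g * (e c)⁻¹ := by
    intro c g
    have h1 : (MulAut.conjNormal (H := commutator H) (c : H)) (e.symm g) = c * e.symm g * c⁻¹ := by
      ext
      rw [MulAut.conjNormal_apply]
      rfl
    change e ((MulAut.conjNormal (H := commutator H) (c : H)) (e.symm g)) = _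
    rw [h1, map_mul, map_mul, map_inv, e.apply_symm_apply]
  -- signs
  have hsign : ∀ α : MulAut G, ∃ k : ℤ, (k = 1 ∨ k = -1) ∧ π (α i) = π i ^ k := by
    intro α
    rcases (core α).1 with h | h
    · exact ⟨1, Or.inl rfl, by rw [h, zpow_one]⟩
    · exact ⟨-1, Or.inr rfl, by rw [h, zpow_neg_one]⟩
  have hmul : ∀ (α β : MulAut G) (k l : ℤ), π (α i) = π i ^ k → π (β i) = π i ^ l →
      π ((α * β) i) = π i ^ (k * l) := by
    intro α β k l hk hl
    rw [(core α).2 β l hl, hk, zpow_mul]
  have hinv : ∀ (α : MulAut G) (k : ℤ), (k = 1 ∨ k = -1) → π (α i) = π i ^ k →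
      π (α⁻¹ i) = π i ^ k := by
    intro α k hk hα
    obtain ⟨l, hl, hl'⟩ := hsign α⁻¹
    have h1 := hmul α α⁻¹ k l hα hl'
    rw [mul_inv_cancel, MulAut.one_apply] at h1
    rcases hk with rfl | rfl <;> rcases hl with rfl | rfl
    · exact hl'
    · exfalso
      rw [hπi] at h1; revert h1; decide
    · exfalso
      rw [hπi] at h1; revert h1; decide
    · exact hl'
  let K : Subgroup (MulAut G) :=
    { carrier := {γ | π (γ i) = π i ^ (1 : ℤ)}
      one_mem' := by change π ((1 : MulAut G) i) = _; rw [MulAut.one_apply, zpow_one]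
      mul_mem' := fun {a b} ha hb => by
        have := hmul a b 1 1 ha hb
        rwa [mul_one] at this
      inv_mem' := fun {a} ha => hinv a 1 (Or.inl rfl) ha }
  have hK : commutator H ≤ K.comap θ := by
    rw [commutator_def, Subgroup.commutator_le]
    intro x _ y _
    rw [Subgroup.mem_comap, map_commutatorElement, commutatorElement_def]
    obtain ⟨k, hk, hk'⟩ := hsign (θ x)
    obtain ⟨l, hl, hl'⟩ := hsign (θ y)
    have h1 := hmul _ _ _ _ hk' hl'
    have h2 := hmul _ _ _ _ h1 (hinv _ _ hk hk')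
    have h3 := hmul _ _ _ _ h2 (hinv _ _ hl hl')
    change π _ = π i ^ (1 : ℤ)
    rw [h3]
    rcases hk with rfl | rfl <;> rcases hl with rfl | rfl <;> norm_num
  have h1 : θ (e.symm j) ∈ K := hK (e.symm j).2
  have h2 : π (θ (e.symm j) i) = π i ^ (1 : ℤ) := h1
  rw [hθ, e.apply_symm_apply] at h2
  have h3 : j * i * j⁻¹ = i⁻¹ := by
    have e1 : i * j = j * i⁻¹ := by rw [← hji]; group
    calc j * i * j⁻¹ = i⁻¹ * (i * j) * i * j⁻¹ := by group
      _ = i⁻¹ * (j * i⁻¹) * i * j⁻¹ := by rw [e1]
      _ = _ := by group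
  rw [h3, map_inv, zpow_one, hπi] at h2
  revert h2
  decide

end

/-- Universe independence of integrability. -/
theorem integrable_ulift {G : Type} [Group G] (h : Integrable.{0} G) : Integrable.{u} G := by
  obtain ⟨H, _, ⟨e⟩⟩ := h
  refine ⟨ULift.{u} H, inferInstance, ⟨?_⟩⟩
  have h1 : (commutator (ULift.{u} H)).map (MulEquiv.ulift : ULift.{u} H ≃* H).toMonoidHom =
      commutator H := by
    rw [commutator_def, commutator_def, Subgroup.map_commutator]
    have : (⊤ : Subgroup (ULift.{u} H)).map (MulEquiv.ulift : ULift.{u} H ≃* H).toMonoidHom = ⊤ :=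
      Subgroup.map_top_of_surjective _ (MulEquiv.ulift : ULift.{u} H ≃* H).surjective
    rw [this]
  exact ((MulEquiv.ulift : ULift.{u} H ≃* H).subgroupMap _).trans
    ((MulEquiv.subgroupCongr h1).trans e)

/-- A group with an automorphism whose coboundaries generate is integrable. -/
theorem integrable_of_aut {G : Type} [Group G] (t : MulAut G) (S : Set G)
    (hS : Subgroup.closure S = ⊤) (h : ∀ s ∈ S, s ∈ Subgroup.closure {x | ∃ g, x = t g * g⁻¹}) :
    Integrable.{u} G := by
  apply integrable_ulift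
  let φ : Multiplicative ℤ →* MulAut G := zpowersHom _ t
  refine ⟨G ⋊[φ] Multiplicative ℤ, inferInstance, ⟨?_⟩⟩
  have h1 : commutator (G ⋊[φ] Multiplicative ℤ) =
      (SemidirectProduct.inl : G →* G ⋊[φ] Multiplicative ℤ).range := by
    apply le_antisymm
    · rw [SemidirectProduct.range_inl_eq_ker_rightHom]
      exact Abelianization.commutator_subset_ker _
    · rw [MonoidHom.range_eq_map, ← hS, MonoidHom.map_closure, Subgroup.closure_le]
      rintro _ ⟨s, hs, rfl⟩
      have h2 : Subgroup.closure {x | ∃ g, x = t g * g⁻¹} ≤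
          (commutator (G ⋊[φ] Multiplicative ℤ)).comap SemidirectProduct.inl := by
        rw [Subgroup.closure_le]
        rintro _ ⟨g, rfl⟩
        have h3 : (SemidirectProduct.inl (t g * g⁻¹) : G ⋊[φ] Multiplicative ℤ) =
            ⁅(SemidirectProduct.inr (Multiplicative.ofAdd (1 : ℤ)) : G ⋊[φ] Multiplicative ℤ),
              (SemidirectProduct.inl g : G ⋊[φ] Multiplicative ℤ)⁆ := by
          rw [commutatorElement_def, map_mul, map_inv]
          congr 1
          have h4 := SemidirectProduct.inl_aut (φ := φ) (Multiplicative.ofAdd (1 : ℤ)) g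
          have h5 : φ (Multiplicative.ofAdd (1 : ℤ)) = t := by simp [φ]
          rw [h5] at h4
          rw [h4, map_inv]
        change SemidirectProduct.inl (t g * g⁻¹) ∈ commutator (G ⋊[φ] Multiplicative ℤ)
        rw [h3, commutator_def]
        exact Subgroup.commutator_mem_commutator (Subgroup.mem_top _) (Subgroup.mem_top _)
      exact h2 (h s hs)
  exact (MulEquiv.subgroupCongr h1).trans
    (MonoidHom.ofInjective SemidirectProduct.inl_injective).symm

end Gadget

/-- The relators of the gadget that depend only on the number of generators. -/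
def jrel (n : ℕ) : List (List (ℕ × Bool)) :=
  (List.range n).map (fun k => [(k, true), (n, true), (k, false), (n, false)]) ++
  (List.range n).flatMap (fun k => (List.range n).map (fun l =>
    [(k, true), (n + 1, true), (l, true), (n + 1, false), (k, false), (n + 1, true), (l, false),
      (n + 1, false)])) ++
  [[(n, true), (n, true), (n + 1, false), (n + 1, false)],
   [(n + 1, false), (n, true), (n + 1, true), (n, true)]]

/-- The presentation of `(A × A) ⋊ Q₈`, where `A` is the group presented by `P`. -/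
def J (P : Pres) : Pres := (P.1 + 2, P.2 ++ jrel P.1)

theorem jrel_iff {G : Type*} [Group G] (v : ℕ → G) (n : ℕ) :
    (∀ r ∈ jrel n, ev v r = 1) ↔
      (∀ k < n, v k * (v n * ((v k)⁻¹ * (v n)⁻¹)) = 1) ∧
      (∀ k < n, ∀ l < n, v k * (v (n + 1) * (v l * ((v (n + 1))⁻¹ * ((v k)⁻¹ * (v (n + 1) *
        ((v l)⁻¹ * (v (n + 1))⁻¹)))))) = 1) ∧
      v n * (v n * ((v (n + 1))⁻¹ * (v (n + 1))⁻¹)) = 1 ∧
      (v (n + 1))⁻¹ * (v n * (v (n + 1) * v n)) = 1 := by
  have e : (∀ r ∈ jrel n, ev v r = 1) ↔
      (∀ k < n, ev v [(k, true), (n, true), (k, false), (n, false)] = 1) ∧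
      (∀ k < n, ∀ l < n, ev v [(k, true), (n + 1, true), (l, true), (n + 1, false), (k, false),
        (n + 1, true), (l, false), (n + 1, false)] = 1) ∧
      ev v [(n, true), (n, true), (n + 1, false), (n + 1, false)] = 1 ∧
      ev v [(n + 1, false), (n, true), (n + 1, true), (n, true)] = 1 := by
    unfold jrel
    constructor
    · intro h
      refine ⟨fun k hk => h _ ?_, fun k hk l hl => h _ ?_, h _ ?_, h _ ?_⟩
      · simp only [List.mem_append, List.mem_map, List.mem_range]
        exact Or.inl (Or.inl ⟨k, hk, rfl⟩)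
      · simp only [List.mem_append, List.mem_flatMap, List.mem_map, List.mem_range]
        exact Or.inl (Or.inr ⟨k, hk, l, hl, rfl⟩)
      · simp
      · simp
    · rintro ⟨h1, h2, h3, h4⟩ r hr
      simp only [List.mem_append, List.mem_flatMap, List.mem_map, List.mem_range,
        List.mem_cons, List.not_mem_nil, or_false] at hr
      rcases hr with (⟨k, hk, rfl⟩ | ⟨k, hk, l, hl, rfl⟩) | rfl | rfl
      · exact h1 k hk
      · exact h2 k hk l hl
      · exact h3
      · exact h4
  rw [e]
  simp only [ev_cons, ev_nil, if_true, Bool.false_eq_true, if_false, mul_one]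

section

variable (P : Pres) (hP : Valid P)

theorem J_gen_rel : ∀ r ∈ P.2 ++ jrel P.1, ev (gen (J P)) r = 1 := fun r hr =>
  ev_gen_rel (P := J P) hr

/-- The images of the generators of `P`. -/
def jv (i : ℕ) : Grp (J P) := if i < P.1 then gen (J P) i else 1

theorem jv_rel (hP : Valid P) : ∀ r ∈ P.2, ev (jv P) r = 1 := by
  intro r hr
  rw [← J_gen_rel P r (List.mem_append_left _ hr)]
  exact ev_congr fun l hl => by simp [jv, hP r hr l hl]

/-- The map from the group of `P` to the group of `J P`. -/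
def jmap : Grp P →* Grp (J P) :=
  Grp.lift (jv P) (fun i hi => by simp [jv, not_lt.2 hi]) (jv_rel P hP)

theorem jmap_gen (i : ℕ) (hi : i < P.1) : jmap P hP (gen P i) = gen (J P) i := by
  rw [jmap, Grp.lift_gen]
  simp [jv, hi]

include hP in
theorem jact : ∃ f : Grp (J P) →* Equiv.Perm (Grp P × Grp P),
    ∀ i < P.1, f (gen (J P) i) = (Equiv.mulLeft (gen P i)).prodCongr (Equiv.refl (Grp P)) := by
  let L : Grp P →* Equiv.Perm (Grp P × Grp P) :=
    { toFun := fun x => (Equiv.mulLeft x).prodCongr (Equiv.refl (Grp P))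
      map_one' := by ext p <;> simp
      map_mul' := fun a b => by ext p <;> simp [mul_assoc] }
  let v : ℕ → Equiv.Perm (Grp P × Grp P) := fun i =>
    if i < P.1 then L (gen P i) else if i = P.1 + 1 then Equiv.prodComm _ _ else 1
  have vlt : ∀ i < P.1, v i = L (gen P i) := fun i hi => by simp [v, hi]
  have vn : v P.1 = 1 := by simp [v]
  have vn1 : v (P.1 + 1) = Equiv.prodComm _ _ := by simp [v]
  have hv : ∀ i, (J P).1 ≤ i → v i = 1 := by
    intro i hi
    have hi' : P.1 + 2 ≤ i := hi
    have h1 : ¬ i < P.1 := by omega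
    have h2 : i ≠ P.1 + 1 := by omega
    simp [v, h1, h2]
  have hr : ∀ r ∈ (J P).2, ev v r = 1 := by
    intro r hr
    rcases List.mem_append.1 hr with h | h
    · have h1 : ev v r = ev (fun i => L (gen P i)) r := ev_congr fun l hl => vlt _ (hP r h l hl)
      rw [h1, ← map_ev, ev_gen_rel h, map_one]
    · revert r
      have : ∀ r ∈ jrel P.1, ev v r = 1 := by
        rw [jrel_iff]
        have hinv : (Equiv.prodComm (Grp P) (Grp P) : Equiv.Perm (Grp P × Grp P))⁻¹ =
          Equiv.prodComm (Grp P) (Grp P) := rfl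
        refine ⟨fun k hk => ?_, fun k hk l hl => ?_, ?_, ?_⟩
        · rw [vn]; simp
        · rw [vn1, vlt k hk, vlt l hl, ← map_inv, ← map_inv, hinv]
          ext p <;> simp [L]
        · rw [vn, vn1, hinv]
          ext p <;> simp
        · rw [vn, vn1]; simp
      intro r _ h
      exact this r h
  exact ⟨Grp.lift v hv hr, fun i hi => by rw [Grp.lift_gen, vlt i hi]; rfl⟩

include hP in
theorem jquat : ∃ f : Grp (J P) →* QuaternionGroup 2,
    (∀ i < P.1, f (gen (J P) i) = 1) ∧ f (gen (J P) P.1) = a 1 ∧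
      f (gen (J P) (P.1 + 1)) = xa 0 := by
  let v : ℕ → QuaternionGroup 2 := fun i =>
    if i < P.1 then 1 else if i = P.1 then a 1 else if i = P.1 + 1 then xa 0 else 1
  have vlt : ∀ i < P.1, v i = 1 := fun i hi => by simp [v, hi]
  have vn : v P.1 = a 1 := by simp [v]
  have vn1 : v (P.1 + 1) = xa 0 := by simp [v]
  have hv : ∀ i, (J P).1 ≤ i → v i = 1 := by
    intro i hi
    have hi' : P.1 + 2 ≤ i := hi
    have h1 : ¬ i < P.1 := by omega
    have h2 : i ≠ P.1 + 1 := by omega
    have h3 : i ≠ P.1 := by omega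
    simp [v, h1, h2, h3]
  have hr : ∀ r ∈ (J P).2, ev v r = 1 := by
    intro r hr
    rcases List.mem_append.1 hr with h | h
    · have h1 : ev v r = ev (fun i => (1 : QuaternionGroup 2)) r :=
        ev_congr fun l hl => vlt _ (hP r h l hl)
      rw [h1]
      have h2 := map_ev (1 : Grp P →* QuaternionGroup 2) (gen P) r
      simp only [MonoidHom.one_apply] at h2
      exact h2.symm
    · revert r
      have : ∀ r ∈ jrel P.1, ev v r = 1 := by
        rw [jrel_iff]
        refine ⟨fun k hk => ?_, fun k hk l hl => ?_, ?_, ?_⟩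
        · rw [vn, vlt k hk]; simp
        · rw [vn1, vlt k hk, vlt l hl]; simp
        · rw [vn, vn1]; decide
        · rw [vn, vn1]; decide
      intro r _ h
      exact this r h
  exact ⟨Grp.lift v hv hr, fun i hi => by rw [Grp.lift_gen, vlt i hi],
    by rw [Grp.lift_gen, vn], by rw [Grp.lift_gen, vn1]⟩

/-- Any subgroup containing all generators is everything. -/
theorem J_gen_top (S : Subgroup (Grp (J P))) (h : ∀ i < P.1 + 2, gen (J P) i ∈ S) : S = ⊤ := by
  rw [eq_top_iff, ← Grp.closure_gen, Subgroup.closure_le]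
  rintro _ ⟨i, rfl⟩
  by_cases hi : i < P.1 + 2
  · exact h i hi
  · rw [gen_eq_one i (not_lt.1 hi : (J P).1 ≤ i)]
    exact S.one_mem

include hP in
theorem not_integrable_J (hperf : commutator (Grp P) = ⊤) (hne : ∃ i, gen P i ≠ 1) :
    ¬ Integrable.{u} (Grp (J P)) := by
  obtain ⟨π, hπ1, hπ2, -⟩ := jquat P hP
  obtain ⟨f, hf⟩ := jact P hP
  have hrel := (jrel_iff (gen (J P)) P.1).1
    (fun r hr => J_gen_rel P r (List.mem_append_right _ hr))
  obtain ⟨r1, r2, r3, r4⟩ := hrel
  set i := gen (J P) P.1 with hi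
  set j := gen (J P) (P.1 + 1) with hj
  set A : Subgroup (Grp (J P)) := (jmap P hP).range with hA
  have hAcl : A = Subgroup.closure {x | ∃ k < P.1, x = gen (J P) k} := by
    rw [hA, MonoidHom.range_eq_map, ← Grp.closure_gen, MonoidHom.map_closure]
    apply le_antisymm
    · rw [Subgroup.closure_le]
      rintro _ ⟨_, ⟨k, rfl⟩, rfl⟩
      by_cases hk : k < P.1
      · exact Subgroup.subset_closure ⟨k, hk, jmap_gen P hP k hk⟩
      · rw [gen_eq_one k (not_lt.1 hk), map_one]
        exact Subgroup.one_mem _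
    · rw [Subgroup.closure_le]
      rintro _ ⟨k, hk, rfl⟩
      exact Subgroup.subset_closure ⟨_, ⟨k, rfl⟩, jmap_gen P hP k hk⟩
  have hind : ∀ T : Subgroup (Grp (J P)), (∀ k < P.1, gen (J P) k ∈ T) → A ≤ T := by
    intro T hT
    rw [hAcl, Subgroup.closure_le]
    rintro _ ⟨k, hk, rfl⟩
    exact hT k hk
  have hAi : ∀ a ∈ A, a * i = i * a := by
    intro a ha
    have h1 : A ≤ Subgroup.centralizer {i} := by
      apply hind
      intro k hk
      rw [Subgroup.mem_centralizer_singleton_iff]
      have := r1 k hk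
      calc gen (J P) k * i = (gen (J P) k * (i * ((gen (J P) k)⁻¹ * i⁻¹))) * (i * gen (J P) k) := by
            group
        _ = i * gen (J P) k := by rw [this, one_mul]
    exact Subgroup.mem_centralizer_singleton_iff.1 (h1 ha)
  have hAj : ∀ a ∈ A, ∀ b ∈ A, a * (j * b * j⁻¹) = (j * b * j⁻¹) * a := by
    have h1 : ∀ k < P.1, ∀ b ∈ A, gen (J P) k * (j * b * j⁻¹) = (j * b * j⁻¹) * gen (J P) k := by
      intro k hk b hb
      have h2 : A ≤ (Subgroup.centralizer {gen (J P) k}).comap (MulAut.conj j).toMonoidHom := by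
        apply hind
        intro l hl
        rw [Subgroup.mem_comap, Subgroup.mem_centralizer_singleton_iff]
        have h3 := r2 k hk l hl
        change j * gen (J P) l * j⁻¹ * gen (J P) k = gen (J P) k * (j * gen (J P) l * j⁻¹)
        calc j * gen (J P) l * j⁻¹ * gen (J P) k
            = 1 * (j * gen (J P) l * j⁻¹ * gen (J P) k) := by rw [one_mul]
          _ = gen (J P) k * (j * (gen (J P) l * (j⁻¹ * ((gen (J P) k)⁻¹ * (j *
              ((gen (J P) l)⁻¹ * j⁻¹)))))) * (j * gen (J P) l * j⁻¹ * gen (J P) k) := by rw [h3]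
          _ = _ := by group
      have h4 := h2 hb
      rw [Subgroup.mem_comap, Subgroup.mem_centralizer_singleton_iff] at h4
      exact h4.symm
    intro a ha b hb
    have h2 : A ≤ Subgroup.centralizer {j * b * j⁻¹} := by
      apply hind
      intro k hk
      rw [Subgroup.mem_centralizer_singleton_iff]
      exact h1 k hk b hb
    exact Subgroup.mem_centralizer_singleton_iff.1 (h2 ha)
  refine Gadget.not_integrable A i j ?_ ?_ hAi hAj ?_ ?_ ?_ π ?_ hπ2
  · rw [hA, MonoidHom.range_eq_map, ← Subgroup.map_commutator, ← commutator_def, hperf]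
  · intro hbot
    obtain ⟨k, hk⟩ := hne
    have hkn : k < P.1 := by
      by_contra h
      exact hk (gen_eq_one k (not_lt.1 h))
    have h1 : gen (J P) k ∈ A := ⟨gen P k, jmap_gen P hP k hkn⟩
    rw [hbot, Subgroup.mem_bot] at h1
    have h2 := hf k hkn
    rw [h1, map_one] at h2
    have h3 := congrArg (fun g : Equiv.Perm (Grp P × Grp P) => (g (1, 1)).1) h2
    simp at h3
    exact hk h3.symm
  · calc i * i = (i * (i * (j⁻¹ * j⁻¹))) * (j * j) := by group
      _ = j * j := by rw [r3, one_mul]
  · calc j⁻¹ * i * j = (j⁻¹ * (i * (j * i))) * i⁻¹ := by group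
      _ = i⁻¹ := by rw [r4, one_mul]
  · intro S hS hiS hjS
    apply J_gen_top
    intro k hk
    rcases lt_or_ge k P.1 with h | h
    · exact hS ⟨gen P k, jmap_gen P hP k h⟩
    · have : k = P.1 ∨ k = P.1 + 1 := by omega
      rcases this with rfl | rfl
      · exact hiS
      · exact hjS
  · intro a ha
    have h1 : A ≤ π.ker := hind _ (fun k hk => hπ1 k hk)
    exact h1 ha

include hP in
theorem integrable_J (htriv : ∀ i, gen P i = 1) : Integrable.{u} (Grp (J P)) := by
  have hrel := (jrel_iff (gen (J P)) P.1).1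
    (fun r hr => J_gen_rel P r (List.mem_append_right _ hr))
  obtain ⟨-, -, r3, r4⟩ := hrel
  set i := gen (J P) P.1 with hi
  set j := gen (J P) (P.1 + 1) with hj
  have hlt : ∀ k < P.1, gen (J P) k = 1 := by
    intro k hk
    rw [← jmap_gen P hP k hk, htriv k, map_one]
  have hij : i * i = j * j := by
    calc i * i = (i * (i * (j⁻¹ * j⁻¹))) * (j * j) := by group
      _ = j * j := by rw [r3, one_mul]
  have hji : j * i = i⁻¹ * j := by
    have h1 : i * (j * i) = j := by
      calc i * (j * i) = j * (j⁻¹ * (i * (j * i))) := by group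
        _ = j := by rw [r4, mul_one]
    calc j * i = i⁻¹ * (i * (j * i)) := by group
      _ = _ := by rw [h1]
  have hjij : j * i * j = i := by
    calc j * i * j = i⁻¹ * (j * j) := by rw [hji]; group
      _ = i := by rw [← hij]; group
  -- the endomorphism
  let v : ℕ → Grp (J P) := fun k => if k = P.1 then j else if k = P.1 + 1 then i * j else 1
  have vlt : ∀ k < P.1, v k = 1 := fun k hk => by
    have h1 : k ≠ P.1 := by omega
    have h2 : k ≠ P.1 + 1 := by omega
    simp [v, h1, h2]
  have vn : v P.1 = j := by simp [v]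
  have vn1 : v (P.1 + 1) = i * j := by simp [v]
  have hv : ∀ k, (J P).1 ≤ k → v k = 1 := by
    intro k hk
    have hk' : P.1 + 2 ≤ k := hk
    have h1 : k ≠ P.1 := by omega
    have h2 : k ≠ P.1 + 1 := by omega
    simp [v, h1, h2]
  have hr : ∀ r ∈ (J P).2, ev v r = 1 := by
    intro r hr
    rcases List.mem_append.1 hr with h | h
    · have h1 : ev v r = ev (fun i => (1 : Grp (J P))) r :=
        ev_congr fun l hl => vlt _ (hP r h l hl)
      rw [h1]
      have h2 := map_ev (1 : Grp P →* Grp (J P)) (gen P) r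
      simp only [MonoidHom.one_apply] at h2
      exact h2.symm
    · revert r
      have : ∀ r ∈ jrel P.1, ev v r = 1 := by
        rw [jrel_iff]
        refine ⟨fun k hk => ?_, fun k hk l hl => ?_, ?_, ?_⟩
        · rw [vn, vlt k hk]; simp
        · rw [vn1, vlt k hk, vlt l hl]; simp
        · rw [vn, vn1]
          have h1 : i * j * (i * j) = j * j := by
            calc i * j * (i * j) = i * (j * i * j) := by group
              _ = j * j := by rw [hjij, hij]
          calc j * (j * ((i * j)⁻¹ * (i * j)⁻¹)) = (j * j) * (i * j * (i * j))⁻¹ := by group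
            _ = 1 := by rw [h1]; group
        · rw [vn, vn1]
          calc (i * j)⁻¹ * (j * (i * j * j)) = (i * j)⁻¹ * (j * i * j) * j := by group
            _ = (i * j)⁻¹ * i * j := by rw [hjij]
            _ = 1 := by
              have : (i * j)⁻¹ * i * j = j⁻¹ * j := by group
              rw [this]; group
      intro r _ h
      exact this r h
  let τ : Grp (J P) →* Grp (J P) := Grp.lift v hv hr
  have τg : ∀ k, τ (gen (J P) k) = v k := fun k => Grp.lift_gen v hv hr k
  have τi : τ i = j := (τg _).trans vn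
  have τj : τ j = i * j := (τg _).trans vn1
  have τ3 : (τ.comp τ).comp τ = MonoidHom.id _ := by
    apply Grp.hom_ext
    intro k hk
    have hk' : k < P.1 + 2 := hk
    rcases lt_or_ge k P.1 with h | h
    · rw [hlt k h, map_one, map_one]
    · have : k = P.1 ∨ k = P.1 + 1 := by omega
      rcases this with rfl | rfl
      · change τ (τ (τ i)) = i
        rw [τi, τj, map_mul, τi, τj]
        calc j * (i * j) = j * i * j := by group
          _ = i := hjij
      · change τ (τ (τ j)) = j
        rw [τj, map_mul, τi, τj, map_mul, map_mul, τi, τj]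
        calc i * j * (j * (i * j)) = i * j * (j * i * j) := by group
          _ = i * (j * i) := by rw [hjij]; group
          _ = j := by rw [hji]; group
  let t : MulAut (Grp (J P)) :=
    { τ with
      invFun := fun x => τ (τ x)
      left_inv := fun x => DFunLike.congr_fun τ3 x
      right_inv := fun x => DFunLike.congr_fun τ3 x }
  have ht : ∀ x, t x = τ x := fun x => rfl
  refine Gadget.integrable_of_aut t (Set.range (gen (J P))) (Grp.closure_gen _) ?_
  set C := Subgroup.closure {x | ∃ g, x = t g * g⁻¹} with hC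
  have hiC : i ∈ C := Subgroup.subset_closure ⟨j, by rw [ht, τj]; group⟩
  have hjC : j ∈ C := by
    have h1 : j * i⁻¹ ∈ C := Subgroup.subset_closure ⟨i, by rw [ht, τi]⟩
    have h2 := C.mul_mem h1 hiC
    have h3 : j * i⁻¹ * i = j := by group
    rwa [h3] at h2
  rintro _ ⟨k, rfl⟩
  by_cases hk : k < P.1 + 2
  · rcases lt_or_ge k P.1 with h | h
    · rw [hlt k h]; exact C.one_mem
    · have : k = P.1 ∨ k = P.1 + 1 := by omega
      rcases this with rfl | rfl
      · exact hiC
      · exact hjC
  · rw [gen_eq_one k (not_lt.1 hk : (J P).1 ≤ k)]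
    exact C.one_mem

include hP in
/-- The gadget. -/
theorem gadget (hperf : commutator (Grp P) = ⊤) :
    Integrable.{u} (Grp (J P)) ↔ ∀ i, gen P i = 1 := by
  refine ⟨fun h => ?_, integrable_J P hP⟩
  by_contra hcon
  push Not at hcon
  exact not_integrable_J P hP hperf hcon h

end

/-- `J P` is a valid presentation. -/
theorem J_valid (P : Pres) (hP : Valid P) : Valid (J P) := by
  intro r hr
  change ∀ l ∈ r, l.1 < P.1 + 2
  rcases List.mem_append.1 hr with h | h
  · intro l hl
    have := hP r h l hl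
    omega
  · simp only [jrel, List.mem_append, List.mem_flatMap, List.mem_map, List.mem_range,
      List.mem_cons, List.not_mem_nil, or_false] at h
    rcases h with (⟨k, hk, rfl⟩ | ⟨k, hk, l', hl', rfl⟩) | rfl | rfl <;>
    · simp only [List.forall_mem_cons, List.not_mem_nil, false_imp_iff, implies_true, and_true]
      omega

end Pool.Agent.W_MP_b13100_lc
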