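import Pool.Agent.W_MP_b13100_lc.Pres

/-! A construction of Adian-Rabin type: from a finite presentation and a word `w` we build a finite
presentation of a perfect group which is trivial if `w = 1` and nontrivial if `w ≠ 1`. -/

set_option autoImplicit false

namespace Pool.Agent.W_MP_b13100_lc

open Set

namespace Rabin

/-! ### A free family in a group of permutations of `ℤ² ∖ 0` -/

/-- Nonzero integer vectors. -/
abbrev V : Type := {p : ℤ × ℤ // p ≠ 0}

/-- `(x, y) ↦ (x + y, y)` -/
def g₁ : Equiv.Perm V where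
  toFun p := ⟨(p.1.1 + p.1.2, p.1.2), by
    intro h
    rw [Prod.mk_eq_zero] at h
    exact p.2 (Prod.ext (by simpa [h.2] using h.1) h.2)⟩
  invFun p := ⟨(p.1.1 - p.1.2, p.1.2), by
    intro h
    rw [Prod.mk_eq_zero] at h
    exact p.2 (Prod.ext (by simpa [h.2] using h.1) h.2)⟩
  left_inv p := by ext <;> simp
  right_inv p := by ext <;> simp

/-- `(x, y) ↦ (x, y - x)` -/
def g₂ : Equiv.Perm V where
  toFun p := ⟨(p.1.1, p.1.2 - p.1.1), by
    intro h
    rw [Prod.mk_eq_zero] at h
    exact p.2 (Prod.ext h.1 (by simpa [h.1] using h.2))⟩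
  invFun p := ⟨(p.1.1, p.1.2 + p.1.1), by
    intro h
    rw [Prod.mk_eq_zero] at h
    exact p.2 (Prod.ext h.1 (by simpa [h.1] using h.2))⟩
  left_inv p := by ext <;> simp
  right_inv p := by ext <;> simp

theorem braid : g₁ * g₂ * g₁ = g₂ * g₁ * g₂ := by
  ext p <;> simp [g₁, g₂]

theorem g₂_pow (n : ℕ) (p : V) : (g₂ ^ n) p = ⟨(p.1.1, p.1.2 - n * p.1.1), by
    intro h
    rw [Prod.mk_eq_zero] at h
    exact p.2 (Prod.ext h.1 (by simpa [h.1] using h.2))⟩ := by
  induction n with
  | zero => ext <;> simp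
  | succ n ih =>
    rw [pow_succ', Equiv.Perm.mul_apply, ih]
    ext
    · simp [g₂]
    · simp [g₂]; ring

theorem free₂ : Function.Injective
    (FreeGroup.lift (fun b : Bool => if b then g₁ else g₂ ^ 5)) := by
  have hV5 : ∀ p : V, ((g₂ ^ 5) p).1 = (p.1.1, p.1.2 - 5 * p.1.1) := fun p => by
    rw [g₂_pow]; rfl
  have hV5' : ∀ p : V, ((g₂ ^ 5)⁻¹ p).1 = (p.1.1, p.1.2 + 5 * p.1.1) := fun p => by
    have h := hV5 ((g₂ ^ 5)⁻¹ p)
    have e : (g₂ ^ 5) ((g₂ ^ 5)⁻¹ p) = p := (g₂ ^ 5).apply_symm_apply p
    rw [e] at h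
    have h1 := congrArg Prod.fst h
    have h2 := congrArg Prod.snd h
    simp only at h1 h2
    ext
    · exact h1.symm
    · rw [h2, h1]; ring
  let X : Bool → Set V := fun b => if b then {p | p.1.2 ^ 2 ≤ 2 * p.1.1 * p.1.2}
    else {p | 2 * p.1.1 * p.1.2 < -(5 * p.1.1 ^ 2)}
  let Y : Bool → Set V := fun b => if b then {p | 2 * p.1.1 * p.1.2 < -(p.1.2 ^ 2)}
    else {p | 5 * p.1.1 ^ 2 ≤ 2 * p.1.1 * p.1.2}
  have hnz : ∀ p : V, p.1.1 = 0 → p.1.2 = 0 → False := fun p h1 h2 => p.2 (Prod.ext h1 h2)
  refine FreeGroup.injective_lift_of_ping_pong (α := V) _ X Y ?_ ?_ ?_ ?_ ?_ ?_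
  · rintro (_ | _)
    · exact ⟨⟨(1, -3), by simp⟩, by simp [X]⟩
    · exact ⟨⟨(1, 1), by simp⟩, by simp [X]⟩
  · rintro (_ | _) (_ | _) h
    · exact absurd rfl h
    · rw [Function.onFun, Set.disjoint_left]
      intro p hp hp'
      simp only [X, if_true, if_false, Bool.false_eq_true, mem_ofPred_eq] at hp hp'
      nlinarith [sq_nonneg p.1.1, sq_nonneg p.1.2]
    · rw [Function.onFun, Set.disjoint_left]
      intro p hp' hp
      simp only [X, if_true, if_false, Bool.false_eq_true, mem_ofPred_eq] at hp hp'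
      nlinarith [sq_nonneg p.1.1, sq_nonneg p.1.2]
    · exact absurd rfl h
  · rintro (_ | _) (_ | _) h
    · exact absurd rfl h
    · rw [Function.onFun, Set.disjoint_left]
      intro p hp hp'
      simp only [Y, if_true, if_false, Bool.false_eq_true, mem_ofPred_eq] at hp hp'
      nlinarith [sq_nonneg p.1.1, sq_nonneg p.1.2]
    · rw [Function.onFun, Set.disjoint_left]
      intro p hp' hp
      simp only [Y, if_true, if_false, Bool.false_eq_true, mem_ofPred_eq] at hp hp'
      nlinarith [sq_nonneg p.1.1, sq_nonneg p.1.2]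
    · exact absurd rfl h
  · -- X i and Y j disjoint
    have hXY : ∀ x y : ℤ, y ^ 2 ≤ 2 * x * y → 5 * x ^ 2 ≤ 2 * x * y → x = 0 ∧ y = 0 := by
      intro x y h1 h2
      have h3 : 4 * x ^ 2 ≤ 0 := by nlinarith [sq_nonneg (x - y), sq_nonneg x]
      have h4 : x ^ 2 = 0 := le_antisymm (by linarith) (sq_nonneg x)
      have h5 : x = 0 := by simpa using h4
      subst h5
      refine ⟨rfl, ?_⟩
      have : y ^ 2 = 0 := le_antisymm (by simpa using h1) (sq_nonneg y)
      simpa using this
    have hXY' : ∀ x y : ℤ, 2 * x * y < -y ^ 2 → 2 * x * y < -(5 * x ^ 2) → False := by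
      intro x y h1 h2
      nlinarith [sq_nonneg (x + y), sq_nonneg x]
    rintro (_ | _) (_ | _)
    · rw [Set.disjoint_left]
      intro p hp hp'
      simp only [X, Y, if_true, if_false, Bool.false_eq_true, mem_ofPred_eq] at hp hp'
      nlinarith [sq_nonneg p.1.1, sq_nonneg p.1.2]
    · rw [Set.disjoint_left]
      intro p hp hp'
      simp only [X, Y, if_true, if_false, Bool.false_eq_true, mem_ofPred_eq] at hp hp'
      exact hXY' p.1.1 p.1.2 (by linarith) hp
    · rw [Set.disjoint_left]
      intro p hp hp'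
      simp only [X, Y, if_true, if_false, Bool.false_eq_true, mem_ofPred_eq] at hp hp'
      obtain ⟨h1, h2⟩ := hXY p.1.1 p.1.2 hp hp'
      exact hnz p h1 h2
    · rw [Set.disjoint_left]
      intro p hp hp'
      simp only [X, Y, if_true, if_false, Bool.false_eq_true, mem_ofPred_eq] at hp hp'
      nlinarith [sq_nonneg p.1.1, sq_nonneg p.1.2]
  · rintro (_ | _) _ ⟨p, hp, rfl⟩
    · simp only [X, Y, if_true, if_false, Bool.false_eq_true, mem_ofPred_eq, mem_compl_iff,
        Equiv.Perm.smul_def, hV5] at hp ⊢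
      nlinarith
    · simp only [X, Y, if_true, if_false, Bool.false_eq_true, mem_ofPred_eq, mem_compl_iff,
        Equiv.Perm.smul_def] at hp ⊢
      simp only [g₁, Equiv.coe_fn_mk]
      nlinarith
  · rintro (_ | _) _ ⟨p, hp, rfl⟩
    · simp only [X, Y, if_true, if_false, Bool.false_eq_true, mem_ofPred_eq, mem_compl_iff,
        Equiv.Perm.smul_def, Pi.inv_apply, hV5'] at hp ⊢
      nlinarith
    · simp only [X, Y, if_true, if_false, Bool.false_eq_true, mem_ofPred_eq, mem_compl_iff,
        Equiv.Perm.smul_def, Pi.inv_apply] at hp ⊢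
      change 2 * (p.1.1 - p.1.2) * p.1.2 < -(p.1.2 ^ 2)
      nlinarith

/-! ### Conjugates of a free generator are free -/

/-- The shift action of `ℤ` on the free group on `ℤ`. -/
def shiftHom : Multiplicative ℤ →* MulAut (FreeGroup ℤ) where
  toFun n := FreeGroup.freeGroupCongr (Equiv.addLeft (Multiplicative.toAdd n))
  map_one' := by
    ext x; simp
  map_mul' a b := by
    ext x
    simp only [MulAut.mul_apply, FreeGroup.freeGroupCongr_apply, FreeGroup.map.comp]
    congr 2
    ext y
    simp [add_assoc]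

theorem shiftHom_of (n : Multiplicative ℤ) (k : ℤ) :
    shiftHom n (FreeGroup.of k) = FreeGroup.of (Multiplicative.toAdd n + k) := by
  simp [shiftHom]

theorem conj_free : Function.Injective
    (FreeGroup.lift (fun j : Fin 4 =>
      (FreeGroup.of false : FreeGroup Bool) ^ (j : ℕ) * FreeGroup.of true *
        (FreeGroup.of false ^ (j : ℕ))⁻¹)) := by
  set F := FreeGroup.lift (fun j : Fin 4 =>
      (FreeGroup.of false : FreeGroup Bool) ^ (j : ℕ) * FreeGroup.of true *
        (FreeGroup.of false ^ (j : ℕ))⁻¹) with hF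
  let T : FreeGroup Bool →* FreeGroup ℤ ⋊[shiftHom] Multiplicative ℤ :=
    FreeGroup.lift (fun b : Bool => if b then SemidirectProduct.inl (FreeGroup.of 0)
      else SemidirectProduct.inr (Multiplicative.ofAdd 1))
  have hT : T.comp F = (SemidirectProduct.inl).comp (FreeGroup.map (fun j : Fin 4 => ((j : ℕ) : ℤ))) := by
    ext1 j
    simp only [MonoidHom.comp_apply, hF, FreeGroup.lift_apply_of, FreeGroup.map.of, map_mul, map_pow, map_inv]
    have h1 : T (FreeGroup.of false) = SemidirectProduct.inr (Multiplicative.ofAdd 1) := by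
      simp [T]
    have h2 : T (FreeGroup.of true) = SemidirectProduct.inl (FreeGroup.of 0) := by
      simp [T]
    rw [h1, h2, ← map_pow, ← map_inv, ← SemidirectProduct.inl_aut, shiftHom_of]
    simp
  have hinj : Function.Injective (T.comp F) := by
    rw [hT]
    intro x y hxy
    simp only [MonoidHom.comp_apply] at hxy
    have := SemidirectProduct.inl_injective hxy
    exact FreeGroup.map_injective (fun a b hab => by
      have : (a : ℕ) = (b : ℕ) := by exact_mod_cast hab
      exact Fin.ext this) this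
  exact Function.Injective.of_comp (f := T) (by exact hinj)

/-- The tuple on the `B`-side. -/
def bTuple (j : Fin 4) : Equiv.Perm V := (g₂ ^ 5) ^ (j : ℕ) * g₁ * ((g₂ ^ 5) ^ (j : ℕ))⁻¹

theorem bTuple_free : Function.Injective (FreeGroup.lift bTuple) := by
  have : FreeGroup.lift bTuple = (FreeGroup.lift (fun b : Bool => if b then g₁ else g₂ ^ 5)).comp
      (FreeGroup.lift (fun j : Fin 4 =>
      (FreeGroup.of false : FreeGroup Bool) ^ (j : ℕ) * FreeGroup.of true *
        (FreeGroup.of false ^ (j : ℕ))⁻¹)) := by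
    ext1 j
    simp [bTuple]
  rw [this]
  exact free₂.comp conj_free

/-! ### The mitosis group -/

variable (U : Type) [Group U]

/-- left multiplication on the first coordinate -/
def lmul : U →* Equiv.Perm (U × U) where
  toFun x := (Equiv.mulLeft x).prodCongr (Equiv.refl U)
  map_one' := by ext p <;> simp
  map_mul' a b := by ext p <;> simp [mul_assoc]

/-- the shear `(a, b) ↦ (a, a b)` -/
def shear : Equiv.Perm (U × U) where
  toFun p := (p.1, p.1 * p.2)
  invFun p := (p.1, p.1⁻¹ * p.2)
  left_inv p := by simp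
  right_inv p := by simp

theorem mitosis (x : U) : shear U * lmul U x * (shear U)⁻¹ =
    lmul U x * Equiv.prodComm U U * (lmul U x) * (Equiv.prodComm U U : Equiv.Perm (U × U))⁻¹ := by
  rw [mul_inv_eq_iff_eq_mul]
  ext p <;> simp [shear, lmul, Equiv.Perm.inv_def, mul_assoc]

theorem lmul_injective : Function.Injective (lmul U) := by
  intro x y h
  have := congrArg (fun f : Equiv.Perm (U × U) => (f (1, 1)).1) h
  simpa [lmul] using this

/-- The free group on `s` (`false`) and `d` (`true`) acting on `U × U`. -/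
def sig : FreeGroup Bool →* Equiv.Perm (U × U) :=
  FreeGroup.lift (fun b => if b then shear U else Equiv.prodComm U U)

/-- The mitosis group. -/
abbrev M : Type := Equiv.Perm (U × U) × FreeGroup Bool

/-- the embedding of the free group in the mitosis group -/
def rho : FreeGroup Bool →* M U := (sig U).prod (MonoidHom.id _)

/-- `M` acts on the free group on `M` by left translation. -/
def transHom (M : Type) [Group M] : M →* MulAut (FreeGroup M) where
  toFun g := FreeGroup.freeGroupCongr (Equiv.mulLeft g)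
  map_one' := by
    ext x; simp
  map_mul' a b := by
    ext x
    simp only [MulAut.mul_apply, FreeGroup.freeGroupCongr_apply, FreeGroup.map.comp]
    congr 2
    ext y
    simp [mul_assoc]

theorem transHom_of (M : Type) [Group M] (g m : M) :
    transHom M g (FreeGroup.of m) = FreeGroup.of (g * m) := by
  simp [transHom]

/-- The `A`-side group. -/
abbrev A : Type := FreeGroup (M U) ⋊[transHom (M U)] (M U)

/-- inclusion of the free group on `s, d` in the free group of rank 4 -/
def iot : FreeGroup Bool →* FreeGroup (Fin 4) :=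
  FreeGroup.lift (fun b => if b then FreeGroup.of 3 else FreeGroup.of 2)

open Classical in
/-- auxiliary function -/
noncomputable def retrFun (w : U) (p : Equiv.Perm (U × U)) : FreeGroup (Fin 4) :=
  if p = lmul U w then FreeGroup.of 0 else if p = 1 then FreeGroup.of 1 else 1

/-- auxiliary retraction on the free part -/
noncomputable def retr (w : U) : FreeGroup (M U) →* FreeGroup (Fin 4) :=
  FreeGroup.lift (fun m => iot m.2 * retrFun U w ((sig U m.2)⁻¹ * m.1) * (iot m.2)⁻¹)

theorem retr_compat (w : U) (g : FreeGroup Bool) :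
    (retr U w).comp (((transHom (M U)).comp (rho U)) g).toMonoidHom =
      (MulAut.conj (iot g)).toMonoidHom.comp (retr U w) := by
  ext1 m
  simp only [MonoidHom.comp_apply, MulEquiv.coe_toMonoidHom, transHom_of, MulAut.conj_apply, retr,
    FreeGroup.lift_apply_of, rho, MonoidHom.prod_apply, MonoidHom.id_apply, Prod.snd_mul,
    Prod.fst_mul, map_mul, mul_inv_rev]
  have e : (sig U m.2)⁻¹ * (sig U g)⁻¹ * (sig U g * m.1) = (sig U m.2)⁻¹ * m.1 := by
    group
  rw [e]
  group

/-- The map of the free group of rank 4 to the restricted semidirect product. -/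
noncomputable def thet (w : U) : FreeGroup (Fin 4) →*
    FreeGroup (M U) ⋊[(transHom (M U)).comp (rho U)] FreeGroup Bool :=
  FreeGroup.lift ![SemidirectProduct.inl (FreeGroup.of (lmul U w, 1)),
    SemidirectProduct.inl (FreeGroup.of 1), SemidirectProduct.inr (FreeGroup.of false),
    SemidirectProduct.inr (FreeGroup.of true)]

theorem thet_injective (w : U) (hw : w ≠ 1) : Function.Injective (thet U w) := by
  have hne : lmul U w ≠ 1 := fun h => hw (lmul_injective U (by rw [h, map_one]))
  let Xi := SemidirectProduct.lift (retr U w) iot (retr_compat U w)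
  have : Xi.comp (thet U w) = MonoidHom.id _ := by
    ext1 j
    fin_cases j
    · simp [Xi, thet, retr, retrFun]
    · simp [Xi, thet, retr, retrFun, hne.symm]
    · simp [Xi, thet, iot]
    · simp [Xi, thet, iot]
  intro x y hxy
  have h1 := congrArg Xi hxy
  have h2 := DFunLike.congr_fun this x
  have h3 := DFunLike.congr_fun this y
  simp only [MonoidHom.comp_apply, MonoidHom.id_apply] at h2 h3
  rw [← h2, ← h3, h1]

/-- The inclusion of the restricted semidirect product. -/
noncomputable def psi : FreeGroup (M U) ⋊[(transHom (M U)).comp (rho U)] FreeGroup Bool →* A U :=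
  SemidirectProduct.map (MonoidHom.id _) (rho U) (fun _ => rfl)

theorem psi_injective : Function.Injective (psi U) := by
  intro x y hxy
  have h1 := congrArg SemidirectProduct.left hxy
  have h2 := congrArg SemidirectProduct.right hxy
  simp only [psi, SemidirectProduct.map_left, SemidirectProduct.map_right, MonoidHom.id_apply] at h1 h2
  have h3 : x.right = y.right := congrArg Prod.snd h2
  exact SemidirectProduct.ext h1 h3

/-- The elements `b`, `s`, `d` and the image of `U` on the `A`-side. -/
noncomputable def bA : A U := SemidirectProduct.inl (FreeGroup.of 1)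

/-- image of `U` -/
noncomputable def uA : U →* A U :=
  SemidirectProduct.inr.comp ((MonoidHom.inl _ _).comp (lmul U))

/-- The element `s`. -/
noncomputable def sA : A U := SemidirectProduct.inr (rho U (FreeGroup.of false))

/-- The element `d`. -/
noncomputable def dA : A U := SemidirectProduct.inr (rho U (FreeGroup.of true))

theorem mitosisA (x : U) : dA U * uA U x * (dA U)⁻¹ = uA U x * sA U * uA U x * (sA U)⁻¹ := by
  simp only [dA, uA, sA, MonoidHom.comp_apply, ← map_mul, ← map_inv]
  congr 1
  ext1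
  · simpa [rho, sig] using mitosis U x
  · simp [rho]

/-- The tuple on the `A`-side. -/
noncomputable def aTuple (w : U) : Fin 4 → A U :=
  ![uA U w * bA U * (uA U w)⁻¹ * (bA U)⁻¹, bA U, sA U, dA U]

theorem aTuple_free (w : U) (hw : w ≠ 1) : Function.Injective (FreeGroup.lift (aTuple U w)) := by
  let th : FreeGroup (Fin 4) →* FreeGroup (Fin 4) :=
    FreeGroup.lift ![FreeGroup.of 0 * (FreeGroup.of 1)⁻¹, FreeGroup.of 1, FreeGroup.of 2,
      FreeGroup.of 3]
  let th' : FreeGroup (Fin 4) →* FreeGroup (Fin 4) :=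
    FreeGroup.lift ![FreeGroup.of 0 * FreeGroup.of 1, FreeGroup.of 1, FreeGroup.of 2,
      FreeGroup.of 3]
  have hth : th'.comp th = MonoidHom.id _ := by
    ext1 j
    fin_cases j <;> simp [th, th']
  have hthinj : Function.Injective th := by
    intro x y hxy
    have h2 := DFunLike.congr_fun hth x
    have h3 := DFunLike.congr_fun hth y
    simp only [MonoidHom.comp_apply, MonoidHom.id_apply] at h2 h3
    rw [← h2, ← h3, hxy]
  have : FreeGroup.lift (aTuple U w) = ((psi U).comp (thet U w)).comp th := by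
    ext1 j
    fin_cases j
    · simp only [th, thet, aTuple, FreeGroup.lift_apply_of, MonoidHom.comp_apply]
      simp only [Fin.zero_eta, Fin.isValue, Matrix.cons_val_zero, map_mul, map_inv,
        FreeGroup.lift_apply_of, Matrix.cons_val_one]
      have h1 : uA U w * bA U * (uA U w)⁻¹ =
          psi U (SemidirectProduct.inl (FreeGroup.of (lmul U w, 1))) := by
        have e : uA U w = SemidirectProduct.inr ((lmul U w, 1) : M U) := rfl
        rw [e, bA, ← map_inv, ← SemidirectProduct.inl_aut, transHom_of, mul_one]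
        simp only [psi, SemidirectProduct.map_inl, MonoidHom.id_apply]
      rw [h1]
      simp [psi, bA]
    · simp [th, thet, aTuple, psi, bA]
    · simp [th, thet, aTuple, psi, sA]
    · simp [th, thet, aTuple, psi, dA]
  rw [this]
  exact ((psi_injective U).comp (thet_injective U w hw)).comp hthinj

end Rabin

/-! ### The construction -/

/-- Powers of a generator as words. -/
theorem ev_replicate {G : Type*} [Group G] (v : ℕ → G) (n i : ℕ) (b : Bool) :
    ev v (List.replicate n (i, b)) = (if b then v i else (v i)⁻¹) ^ n := by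
  induction n with
  | zero => simp [ev_nil]
  | succ n ih => rw [List.replicate_succ, ev_cons, ih, pow_succ']

/-- The relators of the Rabin type construction; the generators are `x_0, …, x_{m-1}` (those of
the given presentation), `s = x_m`, `d = x_{m+1}`, `b = x_{m+2}`, `g₁ = x_{m+3}`,
`g₂ = x_{m+4}`. -/
def rab (m : ℕ) (R : List (List (ℕ × Bool))) (w w' : List (ℕ × Bool)) :
    List (List (ℕ × Bool)) :=
  R ++ [w ++ [(m + 2, true)] ++ w' ++ [(m + 2, false), (m + 3, false)]] ++
  [[(m + 3, true), (m + 4, true), (m + 3, true), (m + 4, false), (m + 3, false), (m + 4, false)],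
   [(m + 2, true)] ++ List.replicate 5 (m + 4, true) ++ [(m + 3, false)] ++
     List.replicate 5 (m + 4, false),
   [(m, true)] ++ List.replicate 10 (m + 4, true) ++ [(m + 3, false)] ++
     List.replicate 10 (m + 4, false),
   [(m + 1, true)] ++ List.replicate 15 (m + 4, true) ++ [(m + 3, false)] ++
     List.replicate 15 (m + 4, false)] ++
  (List.range m).map (fun i => [(m + 1, true), (i, true), (m + 1, false), (m, true), (i, false),
    (m, false), (i, false)])

theorem rab_rel_iff {G : Type*} [Group G] (v : ℕ → G) (m : ℕ) (R : List (List (ℕ × Bool)))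
    (w w' : List (ℕ × Bool)) :
    (∀ r ∈ rab m R w w', ev v r = 1) ↔ (∀ r ∈ R, ev v r = 1) ∧
      ev v w * (v (m + 2) * (ev v w' * ((v (m + 2))⁻¹ * (v (m + 3))⁻¹))) = 1 ∧
      v (m + 3) * (v (m + 4) * (v (m + 3) * ((v (m + 4))⁻¹ * ((v (m + 3))⁻¹ *
        (v (m + 4))⁻¹)))) = 1 ∧
      v (m + 2) * (v (m + 4) ^ 5 * ((v (m + 3))⁻¹ * (v (m + 4))⁻¹ ^ 5)) = 1 ∧
      v m * (v (m + 4) ^ 10 * ((v (m + 3))⁻¹ * (v (m + 4))⁻¹ ^ 10)) = 1 ∧
      v (m + 1) * (v (m + 4) ^ 15 * ((v (m + 3))⁻¹ * (v (m + 4))⁻¹ ^ 15)) = 1 ∧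
      ∀ i < m, v (m + 1) * (v i * ((v (m + 1))⁻¹ * (v m * ((v i)⁻¹ * ((v m)⁻¹ *
        (v i)⁻¹))))) = 1 := by
  have e1 : (∀ r ∈ rab m R w w', ev v r = 1) ↔ (∀ r ∈ R, ev v r = 1) ∧
      (∀ r ∈ [w ++ [(m + 2, true)] ++ w' ++ [(m + 2, false), (m + 3, false)]], ev v r = 1) ∧
      (∀ r ∈ [[(m + 3, true), (m + 4, true), (m + 3, true), (m + 4, false), (m + 3, false), (m + 4, false)],
   [(m + 2, true)] ++ List.replicate 5 (m + 4, true) ++ [(m + 3, false)] ++
     List.replicate 5 (m + 4, false),
   [(m, true)] ++ List.replicate 10 (m + 4, true) ++ [(m + 3, false)] ++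
     List.replicate 10 (m + 4, false),
   [(m + 1, true)] ++ List.replicate 15 (m + 4, true) ++ [(m + 3, false)] ++
     List.replicate 15 (m + 4, false)], ev v r = 1) ∧
      (∀ r ∈ (List.range m).map (fun i => [(m + 1, true), (i, true), (m + 1, false), (m, true),
        (i, false), (m, false), (i, false)]), ev v r = 1) := by
    unfold rab
    simp only [List.forall_mem_append, and_assoc]
  rw [e1]
  simp only [List.forall_mem_cons, ev_append, ev_cons, ev_nil, ev_replicate, List.forall_mem_map,
    List.mem_range, List.not_mem_nil, false_imp_iff, implies_true, and_true, if_true,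
    Bool.false_eq_true, if_false, mul_one, mul_assoc, and_assoc]

theorem rab_collapse {G : Type*} [Group G] (v : ℕ → G) (m : ℕ) (R : List (List (ℕ × Bool)))
    (w w' : List (ℕ × Bool)) (hw' : ev v w' = (ev v w)⁻¹)
    (hrel : ∀ r ∈ rab m R w w', ev v r = 1) (hv : ∀ i, m + 5 ≤ i → v i = 1)
    (h : ev v w * v (m + 2) = v (m + 2) * ev v w) : ∀ i, v i = 1 := by
  rw [rab_rel_iff] at hrel
  obtain ⟨-, h1, h2, h3, h4, h5, h6⟩ := hrel
  have hg1 : v (m + 3) = 1 := by
    rw [hw', ← mul_assoc, h] at h1
    simpa using h1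
  rw [hg1] at h2 h3 h4 h5
  have hg2 : v (m + 4) = 1 := by simpa using h2
  rw [hg2] at h3 h4 h5
  have hb : v (m + 2) = 1 := by simpa using h3
  have hs : v m = 1 := by simpa using h4
  have hd : v (m + 1) = 1 := by simpa using h5
  have hx : ∀ i < m, v i = 1 := by
    intro i hi
    have := h6 i hi
    rw [hs, hd] at this
    simpa using this
  intro i
  rcases lt_or_ge i m with hi | hi
  · exact hx i hi
  · rcases lt_or_ge i (m + 5) with hi' | hi'
    · obtain ⟨k, rfl⟩ := Nat.exists_eq_add_of_le hi
      have hk : k < 5 := by omega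
      interval_cases k
      · simpa using hs
      · exact hd
      · exact hb
      · exact hg1
      · exact hg2
    · exact hv i hi'

/-- (R1a) The group is perfect. -/
theorem rab_perfect {G : Type*} [CommGroup G] (v : ℕ → G) (m : ℕ) (R : List (List (ℕ × Bool)))
    (w w' : List (ℕ × Bool)) (hw' : ev v w' = (ev v w)⁻¹)
    (hrel : ∀ r ∈ rab m R w w', ev v r = 1) (hv : ∀ i, m + 5 ≤ i → v i = 1) : ∀ i, v i = 1 :=
  rab_collapse v m R w w' hw' hrel hv (mul_comm _ _)

/-- (R1b) If `w = 1` then the group is trivial. -/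
theorem rab_trivial {G : Type*} [Group G] (v : ℕ → G) (m : ℕ) (R : List (List (ℕ × Bool)))
    (w w' : List (ℕ × Bool)) (hw' : ev v w' = (ev v w)⁻¹)
    (hrel : ∀ r ∈ rab m R w w', ev v r = 1) (hv : ∀ i, m + 5 ≤ i → v i = 1)
    (hw : ev v w = 1) : ∀ i, v i = 1 :=
  rab_collapse v m R w w' hw' hrel hv (by rw [hw, one_mul, mul_one])

/-- The two sides of the amalgam. -/
abbrev Fam (U : Type) [Group U] : Bool → Type
  | true => Rabin.A U
  | false => Equiv.Perm Rabin.V

instance (U : Type) [Group U] : ∀ i, Group (Fam U i)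
  | true => inferInstanceAs (Group (Rabin.A U))
  | false => inferInstanceAs (Group (Equiv.Perm Rabin.V))

/-- The two embeddings of the free group of rank 4. -/
noncomputable def emb (U : Type) [Group U] (w : U) : ∀ i, FreeGroup (Fin 4) →* Fam U i
  | true => FreeGroup.lift (Rabin.aTuple U w)
  | false => FreeGroup.lift Rabin.bTuple

theorem emb_injective (U : Type) [Group U] (w : U) (hw : w ≠ 1) :
    ∀ i, Function.Injective (emb U w i)
  | true => Rabin.aTuple_free U w hw
  | false => Rabin.bTuple_free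

/-- (R2) If `w ≠ 1` in some group satisfying the relations `R`, then there is a nontrivial group
satisfying the relations of the construction. -/
theorem rab_nontrivial (U : Type) [Group U] (u : ℕ → U) (m : ℕ) (R : List (List (ℕ × Bool)))
    (w w' : List (ℕ × Bool)) (hR : ∀ r ∈ R, ∀ l ∈ r, l.1 < m) (hwm : ∀ l ∈ w, l.1 < m)
    (hwm' : ∀ l ∈ w', l.1 < m) (hw' : ev u w' = (ev u w)⁻¹)
    (hrel : ∀ r ∈ R, ev u r = 1) (hw : ev u w ≠ 1) :
    ∃ (G : Type) (_ : Group G) (v : ℕ → G), (∀ r ∈ rab m R w w', ev v r = 1) ∧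
      (∀ i, m + 5 ≤ i → v i = 1) ∧ ∃ i, v i ≠ 1 := by
  classical
  let G := Monoid.PushoutI (emb U (ev u w))
  let ofA : Rabin.A U →* G := Monoid.PushoutI.of (φ := emb U (ev u w)) true
  let ofB : Equiv.Perm Rabin.V →* G := Monoid.PushoutI.of (φ := emb U (ev u w)) false
  have hAB : ∀ j, ofA (Rabin.aTuple U (ev u w) j) = ofB (Rabin.bTuple j) := by
    intro j
    have h1 := Monoid.PushoutI.of_apply_eq_base (emb U (ev u w)) true (FreeGroup.of j)
    have h2 := Monoid.PushoutI.of_apply_eq_base (emb U (ev u w)) false (FreeGroup.of j)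
    have h3 : emb U (ev u w) true (FreeGroup.of j) = Rabin.aTuple U (ev u w) j :=
      FreeGroup.lift_apply_of
    have h4 : emb U (ev u w) false (FreeGroup.of j) = Rabin.bTuple j := FreeGroup.lift_apply_of
    rw [h3] at h1
    rw [h4] at h2
    exact h1.trans h2.symm
  let f : U →* G := ofA.comp (Rabin.uA U)
  let v : ℕ → G := fun i => if i < m then f (u i) else
    if i = m then ofA (Rabin.sA U) else if i = m + 1 then ofA (Rabin.dA U) else
    if i = m + 2 then ofA (Rabin.bA U) else if i = m + 3 then ofB Rabin.g₁ else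
    if i = m + 4 then ofB Rabin.g₂ else 1
  have vlt : ∀ i < m, v i = f (u i) := fun i hi => by simp [v, hi]
  have vs : v m = ofA (Rabin.sA U) := by simp [v]
  have vd : v (m + 1) = ofA (Rabin.dA U) := by simp [v]
  have vb : v (m + 2) = ofA (Rabin.bA U) := by simp [v]
  have vg1 : v (m + 3) = ofB Rabin.g₁ := by simp [v]
  have vg2 : v (m + 4) = ofB Rabin.g₂ := by simp [v]
  have vev : ∀ r : List (ℕ × Bool), (∀ l ∈ r, l.1 < m) → ev v r = f (ev u r) := by
    intro r hr
    rw [map_ev]
    exact ev_congr fun l hl => vlt _ (hr l hl)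
  refine ⟨G, inferInstance, v, ?_, ?_, m + 3, ?_⟩
  · rw [rab_rel_iff]
    refine ⟨fun r hr => ?_, ?_, ?_, ?_, ?_, ?_, fun i hi => ?_⟩
    · rw [vev r (hR r hr), hrel r hr, map_one]
    · rw [vev w hwm, vev w' hwm', hw', vb, vg1]
      have := hAB 0
      simp only [Rabin.aTuple, Rabin.bTuple, Matrix.cons_val_zero, Fin.val_zero, pow_zero,
        one_mul, inv_one, mul_one] at this
      rw [← this]
      change ofA (Rabin.uA U (ev u w)) * (ofA (Rabin.bA U) * (ofA (Rabin.uA U (ev u w)⁻¹) *
        ((ofA (Rabin.bA U))⁻¹ * (ofA (Rabin.uA U (ev u w) * Rabin.bA U *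
        (Rabin.uA U (ev u w))⁻¹ * (Rabin.bA U)⁻¹))⁻¹))) = 1
      simp only [map_inv, map_mul]
      group
    · rw [vg1, vg2]
      have := congrArg ofB Rabin.braid
      simp only [map_mul] at this
      simp only [← mul_assoc]
      rw [this]
      group
    · rw [vb, vg1, vg2]
      have := hAB 1
      simp only [Rabin.aTuple, Rabin.bTuple, map_mul, map_pow, map_inv] at this
      simp only [Fin.isValue, Matrix.cons_val_one, Matrix.cons_val_zero, Fin.val_one, pow_one] at this
      rw [this]
      group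
    · rw [vs, vg1, vg2]
      have := hAB 2
      simp only [Rabin.aTuple, Rabin.bTuple, map_mul, map_pow, map_inv] at this
      simp only [Fin.isValue, Matrix.cons_val, Fin.val_two, ← pow_mul, Nat.reduceMul] at this
      rw [this]
      group
    · rw [vd, vg1, vg2]
      have := hAB 3
      simp only [Rabin.aTuple, Rabin.bTuple, map_mul, map_pow, map_inv] at this
      have h3 : ((3 : Fin 4) : ℕ) = 3 := rfl
      simp only [Fin.isValue, Matrix.cons_val, h3, ← pow_mul, Nat.reduceMul] at this
      rw [this]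
      group
    · rw [vs, vd, vlt i hi]
      have := congrArg ofA (Rabin.mitosisA U (u i))
      simp only [map_mul, map_inv] at this
      change ofA (Rabin.dA U) * (ofA (Rabin.uA U (u i)) * ((ofA (Rabin.dA U))⁻¹ *
        (ofA (Rabin.sA U) * ((ofA (Rabin.uA U (u i)))⁻¹ * ((ofA (Rabin.sA U))⁻¹ *
        (ofA (Rabin.uA U (u i)))⁻¹))))) = 1
      calc _ = (ofA (Rabin.dA U) * ofA (Rabin.uA U (u i)) * (ofA (Rabin.dA U))⁻¹) *
            (ofA (Rabin.sA U) * ((ofA (Rabin.uA U (u i)))⁻¹ * ((ofA (Rabin.sA U))⁻¹ *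
        (ofA (Rabin.uA U (u i)))⁻¹))) := by group
        _ = 1 := by rw [this]; group
  · intro i hi
    have h0 : ¬ i < m := by omega
    have h1 : i ≠ m := by omega
    have h2 : i ≠ m + 1 := by omega
    have h3 : i ≠ m + 2 := by omega
    have h4 : i ≠ m + 3 := by omega
    have h5 : i ≠ m + 4 := by omega
    simp [v, h0, h1, h2, h3, h4, h5]
  · rw [vg1]
    intro h
    have hinj : Function.Injective ofB :=
      Monoid.PushoutI.of_injective (emb_injective U (ev u w) hw) false
    have h1 : Rabin.g₁ = 1 := hinj (by rw [h, map_one])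
    have h2 := congrArg (fun g : Equiv.Perm Rabin.V => (g ⟨(0, 1), by simp⟩).1.1) h1
    simp [Rabin.g₁] at h2

end Pool.Agent.W_MP_b13100_lc
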