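import Pool.Agent.W_MP_b13100_lc.NB
import Pool.Agent.W_MP_b13100_lc.Rabin
import Pool.Agent.W_MP_b13100_lc.Gadget

/-! The computable reduction of the halting problem to integrability. -/

namespace Pool.Agent.W_MP_b13100_lc

universe u

/-- the word `[κ, xⁿ t x⁻ⁿ]` -/
def wd (κ x t n : ℕ) : List (ℕ × Bool) :=
  [(κ, true)] ++ List.replicate n (x, true) ++ [(t, true)] ++ List.replicate n (x, false) ++
  [(κ, false)] ++ List.replicate n (x, true) ++ [(t, false)] ++ List.replicate n (x, false)

/-- its inverse -/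
def wd' (κ x t n : ℕ) : List (ℕ × Bool) :=
  List.replicate n (x, true) ++ [(t, true)] ++ List.replicate n (x, false) ++ [(κ, true)] ++
  List.replicate n (x, true) ++ [(t, false)] ++ List.replicate n (x, false) ++ [(κ, false)]

theorem ev_wd {G : Type*} [Group G] (v : ℕ → G) (κ x t n : ℕ) :
    ev v (wd κ x t n) = v κ * (v x ^ n * v t * (v x ^ n)⁻¹) *
      ((v x ^ n * v t * (v x ^ n)⁻¹) * v κ)⁻¹ := by
  simp only [wd, ev_append, ev_cons, ev_nil, ev_replicate, if_true, Bool.false_eq_true, if_false]
  group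

theorem ev_wd' {G : Type*} [Group G] (v : ℕ → G) (κ x t n : ℕ) :
    ev v (wd' κ x t n) = (ev v (wd κ x t n))⁻¹ := by
  rw [ev_wd]
  simp only [wd', ev_append, ev_cons, ev_nil, ev_replicate, if_true, Bool.false_eq_true, if_false]
  group

theorem ev_wd_eq_one {G : Type*} [Group G] (v : ℕ → G) (κ x t n : ℕ) :
    ev v (wd κ x t n) = 1 ↔ Commute (v κ) (v x ^ n * v t * (v x ^ n)⁻¹) := by
  rw [ev_wd, mul_inv_eq_one]
  rfl

theorem wd_lt {κ x t m : ℕ} (hκ : κ < m) (hx : x < m) (ht : t < m) (n : ℕ) :
    ∀ l ∈ wd κ x t n, l.1 < m := by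
  intro l hl
  simp only [wd, List.mem_append, List.mem_singleton, List.mem_replicate] at hl
  rcases hl with ((((((rfl | ⟨_, rfl⟩) | rfl) | ⟨_, rfl⟩) | rfl) | ⟨_, rfl⟩) | rfl) | ⟨_, rfl⟩ <;>
    assumption

theorem wd'_lt {κ x t m : ℕ} (hκ : κ < m) (hx : x < m) (ht : t < m) (n : ℕ) :
    ∀ l ∈ wd' κ x t n, l.1 < m := by
  intro l hl
  simp only [wd', List.mem_append, List.mem_singleton, List.mem_replicate] at hl
  rcases hl with ((((((⟨_, rfl⟩ | rfl) | ⟨_, rfl⟩) | rfl) | ⟨_, rfl⟩) | rfl) | ⟨_, rfl⟩) | rfl <;>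
    assumption

theorem primrec_replicate {α : Type} [Primcodable α] (a : α) :
    Primrec (fun n : ℕ => List.replicate n a) := by
  have h : Primrec (fun n : ℕ => (List.range n).map (fun _ => a)) :=
    Primrec.list_map Primrec.list_range (Primrec.const a).to₂
  refine h.of_eq fun n => ?_
  simp

theorem primrec_wd (κ x t : ℕ) : Primrec (wd κ x t) := by
  unfold wd
  refine Primrec.list_append.comp (Primrec.list_append.comp (Primrec.list_append.comp
    (Primrec.list_append.comp (Primrec.list_append.comp (Primrec.list_append.comp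
    (Primrec.list_append.comp (Primrec.const _) (primrec_replicate _)) (Primrec.const _))
    (primrec_replicate _)) (Primrec.const _)) (primrec_replicate _)) (Primrec.const _))
    (primrec_replicate _)

theorem primrec_wd' (κ x t : ℕ) : Primrec (wd' κ x t) := by
  unfold wd'
  refine Primrec.list_append.comp (Primrec.list_append.comp (Primrec.list_append.comp
    (Primrec.list_append.comp (Primrec.list_append.comp (Primrec.list_append.comp
    (Primrec.list_append.comp (primrec_replicate _) (Primrec.const _)) (primrec_replicate _))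
    (Primrec.const _)) (primrec_replicate _)) (Primrec.const _)) (primrec_replicate _))
    (Primrec.const _)

/-- the presentations of the reduction -/
def pres (m : ℕ) (R : List (List (ℕ × Bool))) (κ x t n : ℕ) : Pres :=
  J (m + 5, rab m R (wd κ x t n) (wd' κ x t n))

theorem primrec_pres (m : ℕ) (R : List (List (ℕ × Bool))) (κ x t : ℕ) :
    Primrec (pres m R κ x t) := by
  change Primrec fun n => (((m + 5) + 2, rab m R (wd κ x t n) (wd' κ x t n) ++ jrel (m + 5)) : Pres)
  refine Primrec.pair (Primrec.const _) (Primrec.list_append.comp ?_ (Primrec.const _))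
  unfold rab
  refine Primrec.list_append.comp (Primrec.list_append.comp (Primrec.list_append.comp
    (Primrec.const _) ?_) (Primrec.const _)) (Primrec.const _)
  refine Primrec.list_cons.comp ?_ (Primrec.const [])
  exact Primrec.list_append.comp (Primrec.list_append.comp (Primrec.list_append.comp
    (primrec_wd κ x t) (Primrec.const _)) (primrec_wd' κ x t)) (Primrec.const _)

theorem valid_rab {m : ℕ} {R : List (List (ℕ × Bool))} (hR : ∀ r ∈ R, ∀ l ∈ r, l.1 < m)
    {w w' : List (ℕ × Bool)} (hw : ∀ l ∈ w, l.1 < m) (hw' : ∀ l ∈ w', l.1 < m) :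
    Valid (m + 5, rab m R w w') := by
  intro r hr
  change ∀ l ∈ r, l.1 < m + 5
  simp only [rab, List.mem_append, List.mem_map, List.mem_range, List.mem_cons,
    List.not_mem_nil, or_false] at hr
  rcases hr with ((hr | rfl) | rfl | rfl | rfl | rfl) | ⟨k, hk, rfl⟩
  · intro l hl
    have := hR r hr l hl
    omega
  · intro l hl
    simp only [List.mem_append, List.mem_cons, List.not_mem_nil, or_false] at hl
    rcases hl with ((hl | rfl) | hl) | rfl | rfl
    · have := hw l hl
      omega
    · simp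
    · have := hw' l hl
      omega
    · simp
    · simp
  all_goals
    intro l hl
    simp only [List.mem_append, List.mem_cons, List.not_mem_nil, or_false,
      List.mem_replicate] at hl
    have h1 : l.1 = m ∨ l.1 = m + 1 ∨ l.1 = m + 2 ∨ l.1 = m + 3 ∨ l.1 = m + 4 ∨ l.1 < m := by
      aesop
    omega

/-- the words of the reduction have values 1 exactly for halting programs; integrability of the
group `pres` decides it -/
theorem pres_spec (m : ℕ) (R : List (List (ℕ × Bool))) (κ x t : ℕ)
    (hR : ∀ r ∈ R, ∀ l ∈ r, l.1 < m) (hκ : κ < m) (hx : x < m) (ht : t < m)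
    (h1 : ∀ e, Hl e → ∀ (G : Type) (_ : Group G) (v : ℕ → G), (∀ r ∈ R, ev v r = 1) →
      Commute (v κ) (v x ^ inp e * v t * (v x ^ inp e)⁻¹))
    (h2 : ∀ e, ¬ Hl e → ∃ (G : Type) (_ : Group G) (v : ℕ → G), (∀ r ∈ R, ev v r = 1) ∧
      ¬ Commute (v κ) (v x ^ inp e * v t * (v x ^ inp e)⁻¹)) (e : ℕ) :
    Valid (pres m R κ x t (inp e)) ∧
      (Integrable.{u} (Grp (pres m R κ x t (inp e))) ↔ Hl e) := by
  set w := wd κ x t (inp e) with hw
  set w' := wd' κ x t (inp e) with hw'
  have hP : Valid (m + 5, rab m R w w') := valid_rab hR (wd_lt hκ hx ht _) (wd'_lt hκ hx ht _)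
  refine ⟨J_valid _ hP, ?_⟩
  have hrel : ∀ r ∈ rab m R w w', ev (gen (m + 5, rab m R w w')) r = 1 :=
    fun r hr => ev_gen_rel (P := (m + 5, rab m R w w')) hr
  have hperf : commutator (Grp (m + 5, rab m R w w')) = ⊤ := by
    have h3 : ∀ i, Abelianization.of (gen (m + 5, rab m R w w') i) = 1 := by
      refine rab_perfect (fun i => Abelianization.of (gen (m + 5, rab m R w w') i)) m R w w'
        (ev_wd' _ κ x t _) ?_ ?_
      · intro r hr
        rw [← map_ev, hrel r hr, map_one]
      · intro i hi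
        rw [gen_eq_one (P := (m + 5, rab m R w w')) i hi, map_one]
    have h4 : (Abelianization.of : Grp (m + 5, rab m R w w') →* _) = 1 :=
      Grp.hom_ext fun i _ => h3 i
    rw [← Abelianization.ker_of, h4]
    exact MonoidHom.ker_one
  have hJ := gadget.{u} (m + 5, rab m R w w') hP hperf
  change Integrable.{u} (Grp (J (m + 5, rab m R w w'))) ↔ Hl e
  rw [hJ]
  constructor
  · intro h3
    by_contra hne
    obtain ⟨U, hU, u, hu, hcomm⟩ := h2 e hne
    obtain ⟨G, hG, v, hv1, hv2, i, hi⟩ := rab_nontrivial U u m R w w' hR (wd_lt hκ hx ht _)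
      (wd'_lt hκ hx ht _) (ev_wd' _ κ x t _) hu (fun h => hcomm ((ev_wd_eq_one _ κ x t _).1 h))
    apply hi
    rw [← Grp.lift_gen (P := (m + 5, rab m R w w')) v hv2 hv1 i, h3 i, map_one]
  · intro he
    refine rab_trivial (gen (m + 5, rab m R w w')) m R w w' (ev_wd' _ κ x t _) hrel
      (fun i hi => gen_eq_one (P := (m + 5, rab m R w w')) i hi) ?_
    rw [hw, ev_wd_eq_one]
    exact h1 e he _ _ _ fun r hr => hrel r (by simp [rab, hr])

/-- **Integrability is undecidable**: the halting problem reduces to it, with fixed numbers of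
generators and relators. -/
theorem exists_reduction : ∃ (n k : ℕ) (F : ℕ → Pres), Computable F ∧
    ∀ e, Valid (F e) ∧ (F e).1 = n ∧ (F e).2.length = k ∧
      (Integrable.{u} (Grp (F e)) ↔ Hl e) := by
  obtain ⟨m, R, κ, x, t, hR, hκ, hx, ht, h1, h2⟩ := novikov_boone
  refine ⟨m + 5 + 2, (R.length + 1 + 4 + m) + (jrel (m + 5)).length,
    fun e => pres m R κ x t (inp e), (primrec_pres m R κ x t).to_comp.comp computable_inp,
    fun e => ?_⟩
  obtain ⟨h3, h4⟩ := pres_spec.{u} m R κ x t hR hκ hx ht h1 h2 e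
  refine ⟨h3, rfl, ?_, h4⟩
  simp only [pres, J, rab, List.length_append, List.length_cons, List.length_nil,
    List.length_map, List.length_range]

end Pool.Agent.W_MP_b13100_lc
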