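import Pool.Agent.W_MP_b13100_lc.Model

/-! Words attached to halting configurations commute with the test generator. -/

namespace Pool.Agent.W_MP_b13100_lc

open Function

section

variable {K S I : Type} [Fintype K] [DecidableEq K] {rules : I → Rule S K} {h : S}
  {G : Type} [Group G] {val : Gen K S I → G}

theorem Rels.pw (H : Rels rules h val) : Pairwise fun i j : K => ∀ a b : Multiplicative ℤ,
    Commute (zpowersHom G (val (.x i)) a) (zpowersHom G (val (.x j)) b) := by
  intro i j _ a b
  simp only [zpowersHom_apply]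
  exact (H.comm i j).zpow_zpow _ _

/-- product of powers of the stack generators -/
noncomputable def XX (H : Rels rules h val) : (K → Multiplicative ℤ) →* G :=
  MonoidHom.noncommPiCoprod (fun k => zpowersHom G (val (.x k))) H.pw

theorem XX_mulSingle (H : Rels rules h val) (k : K) (a : Multiplicative ℤ) :
    XX H (Pi.mulSingle k a) = val (.x k) ^ Multiplicative.toAdd a := by
  rw [XX, MonoidHom.noncommPiCoprod_mulSingle, zpowersHom_apply]

/-- multiplicative form of a vector -/
def toM (y : K → ℤ) : K → Multiplicative ℤ := fun k => Multiplicative.ofAdd (y k)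

omit [Fintype K] [DecidableEq K] in
theorem toM_add (y y' : K → ℤ) : toM (y + y') = toM y * toM y' := rfl

omit [Fintype K] in
theorem toM_single (k : K) (n : ℤ) :
    toM (Pi.single k n) = Pi.mulSingle k (Multiplicative.ofAdd n) := by
  funext j
  by_cases hj : j = k
  · subst hj
    simp [toM]
  · simp [toM, hj]

theorem XX_single (H : Rels rules h val) (k : K) (n : ℤ) :
    XX H (toM (Pi.single k n)) = val (.x k) ^ n := by
  rw [toM_single, XX_mulSingle, toAdd_ofAdd]

/-- scaling one coordinate -/
def sc (k : K) (p : ℕ) : (K → Multiplicative ℤ) →* (K → Multiplicative ℤ) where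
  toFun m := update m k (m k ^ p)
  map_one' := by
    funext j
    by_cases hj : j = k
    · subst hj
      simp
    · simp [hj]
  map_mul' m m' := by
    funext j
    by_cases hj : j = k
    · subst hj
      simp [mul_pow]
    · simp [hj]

omit [Fintype K] in
theorem sc_single_self (k : K) (p : ℕ) (a : Multiplicative ℤ) :
    sc k p (Pi.mulSingle k a) = Pi.mulSingle k (a ^ p) := by
  funext j
  by_cases hj : j = k
  · subst hj
    simp [sc]
  · simp [sc, hj]

omit [Fintype K] in
theorem sc_single_ne {k j : K} (hjk : j ≠ k) (p : ℕ) (a : Multiplicative ℤ) :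
    sc k p (Pi.mulSingle j a) = Pi.mulSingle j a := by
  funext i
  by_cases hi : i = k
  · subst hi
    simp [sc, hjk.symm]
  · simp [sc, hi]

omit [Fintype K] in
theorem toM_aff (k : K) (p c : ℕ) (z : K → ℤ) :
    toM (aff k p c z) = sc k p (toM z) * toM (Pi.single k (c : ℤ)) := by
  funext j
  by_cases hj : j = k
  · subst hj
    simp only [toM, aff, sc, update_self, Pi.mul_apply, Pi.single_eq_same, MonoidHom.coe_mk,
      OneHom.coe_mk, ofAdd_add]
    rw [← ofAdd_nsmul, nsmul_eq_mul]
  · simp [toM, aff, sc, hj]

theorem XX_sc (H : Rels rules h val) (i : I) (m : K → Multiplicative ℤ) :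
    val (.r i) * XX H (sc (rules i).k (rules i).p' m) * (val (.r i))⁻¹ =
      XX H (sc (rules i).k (rules i).p m) := by
  have h1 : (MulAut.conj (val (.r i))).toMonoidHom.comp
      ((XX H).comp (sc (rules i).k (rules i).p')) = (XX H).comp (sc (rules i).k (rules i).p) := by
    apply MonoidHom.pi_ext
    intro j a
    simp only [MonoidHom.comp_apply, MulEquiv.coe_toMonoidHom, MulAut.conj_apply]
    by_cases hj : j = (rules i).k
    · subst hj
      rw [sc_single_self, sc_single_self, XX_mulSingle, XX_mulSingle, toAdd_pow, toAdd_pow,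
        nsmul_eq_mul, nsmul_eq_mul, zpow_mul, zpow_mul, zpow_natCast, zpow_natCast,
        mul_inv_eq_iff_eq_mul]
      have := H.rx i
      have h2 : SemiconjBy (val (.r i)) (val (.x (rules i).k) ^ (rules i).p')
        (val (.x (rules i).k) ^ (rules i).p) := this.symm
      exact (h2.zpow_right _).eq
    · rw [sc_single_ne hj, sc_single_ne hj, XX_mulSingle, mul_inv_eq_iff_eq_mul]
      exact ((H.rxj i j hj).zpow_right _).eq
  exact DFunLike.congr_fun h1 m

/-- instances of rules -/
def Inst (rules : I → Rule S K) (a b : S × (K → ℤ)) : Prop :=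
  ∃ i z, a = ((rules i).s, aff (rules i).k (rules i).p (rules i).c z) ∧
    b = ((rules i).s', aff (rules i).k (rules i).p' (rules i).c' z)

theorem commute_of_reach (H : Rels rules h val) (a : S × (K → ℤ))
    (ha : Relation.ReflTransGen (Inst rules) a (h, 0)) :
    Commute (val .kap) (XX H (toM a.2) * val (.t a.1) * (XX H (toM a.2))⁻¹) := by
  induction ha using Relation.ReflTransGen.head_induction_on with
  | refl =>
    have h1 : toM (0 : K → ℤ) = 1 := rfl
    simp only [h1, map_one, one_mul, inv_one, mul_one]
    exact H.kt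
  | head hab _ ih =>
    obtain ⟨i, z, rfl, rfl⟩ := hab
    simp only [toM_aff, map_mul] at ih ⊢
    rw [XX_single, zpow_natCast] at ih ⊢
    rw [← XX_sc H i]
    have h1 := H.rt i
    have h2 := H.kr i
    set r := val (.r i)
    set A := XX H (sc (rules i).k (rules i).p' (toM z))
    set T := val (.x (rules i).k) ^ (rules i).c * val (.t (rules i).s) *
      (val (.x (rules i).k) ^ (rules i).c)⁻¹ with hT
    set T' := val (.x (rules i).k) ^ (rules i).c' * val (.t (rules i).s') *
      (val (.x (rules i).k) ^ (rules i).c')⁻¹ with hT'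
    have h3 : T = r * T' * r⁻¹ := by
      rw [eq_mul_inv_iff_mul_eq]
      exact h1
    have h4 : r * A * r⁻¹ * val (.x (rules i).k) ^ (rules i).c * val (.t (rules i).s) *
        (r * A * r⁻¹ * val (.x (rules i).k) ^ (rules i).c)⁻¹ = r * A * r⁻¹ * T * (r * A * r⁻¹)⁻¹ := by
      rw [hT]
      group
    have h5 : A * val (.x (rules i).k) ^ (rules i).c' * val (.t (rules i).s') *
        (A * val (.x (rules i).k) ^ (rules i).c')⁻¹ = A * T' * A⁻¹ := by
      rw [hT']
      group
    have h6 : r * A * r⁻¹ * T * (r * A * r⁻¹)⁻¹ = r * (A * T' * A⁻¹) * r⁻¹ := by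
      rw [h3]
      group
    rw [h5] at ih
    rw [h4, h6]
    exact (h2.mul_right ih).mul_right h2.inv_right

end

end Pool.Agent.W_MP_b13100_lc
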