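import Pool.Agent.W_MP_b13100_lc.Machine

/-! The input integers form a computable sequence; a universal stack machine. -/

namespace Pool.Agent.W_MP_b13100_lc

open Turing Turing.PartrecToTM2 Function

/-- integer coding the input `e` -/
def inp (e : ℕ) : ℕ := nm (trList [e])

theorem inp_eq (e : ℕ) : inp e = nm (trNum (e : Num) ++ [Γ'.cons]) := rfl

theorem inp_zero : inp 0 = 2 := by
  rw [inp_eq]
  simp [trNum, nm, dg]

theorem inp_bit0 (e : ℕ) (he : e ≠ 0) : inp (2 * e) = 5 * inp e + 3 := by
  have h : ((2 * e : ℕ) : Num) = Num.bit0 (e : Num) := by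
    rw [two_mul, Nat.cast_add, Num.bit0_of_bit0]
  rw [inp_eq, inp_eq, h]
  cases hn : (e : Num) with
  | zero =>
    exfalso
    apply he
    have : ((e : Num) : ℕ) = 0 := by rw [hn]; rfl
    simpa using this
  | pos n => simp [Num.bit0, trNum, trPosNum, nm, dg]

theorem inp_bit1 (e : ℕ) : inp (2 * e + 1) = 5 * inp e + 4 := by
  have h : ((2 * e + 1 : ℕ) : Num) = Num.bit1 (e : Num) := by
    rw [two_mul, Nat.cast_add, Nat.cast_add, Nat.cast_one, Num.bit1_of_bit1]
  rw [inp_eq, inp_eq, h]
  cases hn : (e : Num) with
  | zero => simp [Num.bit1, trNum, trPosNum, nm, dg]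
  | pos n => simp [Num.bit1, trNum, trPosNum, nm, dg]

theorem computable_inp : Computable inp := by
  have h : Primrec₂ (fun (_ : Unit) (e : ℕ) => inp e) := by
    refine Primrec.nat_strong_rec _ (g := fun _ l =>
      if l.length = 0 then some 2 else
        (l[l.length / 2]?).map (fun z => 5 * z + (if l.length % 2 = 0 then 3 else 4))) ?_ ?_
    · have hl : Primrec (fun x : Unit × List ℕ => x.2.length) :=
        Primrec.list_length.comp Primrec.snd
      refine Primrec.ite (Primrec.eq.comp hl (Primrec.const 0)) (Primrec.const _) ?_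
      refine Primrec.option_map (Primrec.list_getElem?.comp Primrec.snd
        (Primrec.nat_div.comp hl (Primrec.const 2))) ?_
      refine Primrec.nat_add.comp (Primrec.nat_mul.comp (Primrec.const 5) Primrec.snd) ?_
      refine Primrec.ite (Primrec.eq.comp (Primrec.nat_mod.comp (hl.comp Primrec.fst)
        (Primrec.const 2)) (Primrec.const 0)) (Primrec.const _) (Primrec.const _)
    · intro _ n
      simp only [List.length_map, List.length_range]
      by_cases hn : n = 0
      · simp [hn, inp_zero]
      · rw [if_neg hn, List.getElem?_map, List.getElem?_range (by omega)]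
        simp only [Option.map_some, Option.some.injEq]
        rcases Nat.even_or_odd' n with ⟨k, hk | hk⟩
        · subst hk
          have h1 : 2 * k / 2 = k := by omega
          have h2 : 2 * k % 2 = 0 := by omega
          rw [h1, h2, if_pos rfl, inp_bit0 k (by omega)]
        · subst hk
          have h1 : (2 * k + 1) / 2 = k := by omega
          have h2 : (2 * k + 1) % 2 = 1 := by omega
          rw [h1, h2, if_neg one_ne_zero, inp_bit1 k]
  exact (h.comp (Primrec.const ()) Primrec.id).to_comp

/-- the halting predicate used -/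
def Hl (e : ℕ) : Prop := (Nat.Partrec.Code.eval (Denumerable.ofNat Nat.Partrec.Code e) 0).Dom

theorem nil_comp_eval (c : ToPartrec.Code) (e : ℕ) (P : Part ℕ) (h : c.eval [e] = pure <$> P) :
    (ToPartrec.Code.nil.comp c).eval [e] = P.bind fun _ => (pure [] : Part (List ℕ)) := by
  rw [ToPartrec.Code.comp_eval]
  simp only [h]
  rw [Part.map_eq_map]
  exact (Part.bind_map pure P (fun v => ToPartrec.Code.nil.eval v)).trans
    (congrArg (Part.bind P) (funext fun x => ToPartrec.Code.nil_eval _))

theorem exists_universal : ∃ c : ToPartrec.Code, ∀ e, (Hl e → c.eval [e] = pure []) ∧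
    (¬ Hl e → ¬ (c.eval [e]).Dom) := by
  have h1 : Partrec (fun e : ℕ =>
      Nat.Partrec.Code.eval (Denumerable.ofNat Nat.Partrec.Code e) 0) :=
    Nat.Partrec.Code.eval_part.comp (Computable.ofNat _) (Computable.const 0)
  obtain ⟨c, hc⟩ := ToPartrec.Code.exists_code (Nat.Partrec'.part_iff₁.2 h1)
  refine ⟨ToPartrec.Code.nil.comp c, fun e => ?_⟩
  rw [nil_comp_eval c e _ (hc ⟨[e], rfl⟩)]
  constructor
  · intro h
    obtain ⟨a, ha⟩ := Part.dom_iff_mem.1 h
    have h2 := Part.eq_some_iff.2 ha
    change (Part.bind (Nat.Partrec.Code.eval (Denumerable.ofNat Nat.Partrec.Code e) 0) _) = _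
    rw [h2]
    simp
  · intro h h'
    apply h
    exact h'.1

end Pool.Agent.W_MP_b13100_lc
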