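import Mathlib

/-! Stack machines as machines acting on vectors of integers by affine rules. -/

namespace Pool.Agent.W_MP_b13100_lc

open Turing Turing.PartrecToTM2 StateTransition Function

/-- statements -/
abbrev Sm : Type := TM2.Stmt (fun _ : K' => Γ') Λ' (Option Γ')

/-- configurations -/
abbrev Cf : Type := TM2.Cfg (fun _ : K' => Γ') Λ' (Option Γ')

/-- states of the integer machine -/
abbrev St : Type := Option (Sm × Option Γ')

/-- The index set of the rules. -/
abbrev Ix : Type := (Sm × Option Γ') × Option Γ'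

/-- An affine rule: in state `s`, if the content of stack `k` is `p * z + c`, replace it by
`p' * z + c'` and go to state `s'`. -/
structure Rule (S K : Type) where
  /-- source state -/
  s : S
  /-- stack -/
  k : K
  /-- source modulus -/
  p : ℕ
  /-- source digit -/
  c : ℕ
  /-- target state -/
  s' : S
  /-- target modulus -/
  p' : ℕ
  /-- target digit -/
  c' : ℕ

/-- the program -/
def prog : Λ' → Sm := tr

/-- digits -/
def dg : Option Γ' → ℕ
  | none => 0
  | some Γ'.consₗ => 1
  | some Γ'.cons => 2
  | some Γ'.bit0 => 3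
  | some Γ'.bit1 => 4

/-- reading digits -/
def ud (z : ℤ) : Option Γ' :=
  if z = 1 then some Γ'.consₗ else if z = 2 then some Γ'.cons else if z = 3 then some Γ'.bit0
  else if z = 4 then some Γ'.bit1 else none

theorem dg_lt (d : Option Γ') : dg d < 5 := by
  rcases d with _ | (_ | _ | _ | _) <;> simp [dg]

theorem ud_dg (d : Option Γ') : ud (dg d) = d := by
  rcases d with _ | (_ | _ | _ | _) <;> simp [dg, ud]

theorem ud_emod (z : ℤ) (d : Option Γ') : ud ((5 * z + dg d) % 5) = d := by
  have h1 : (5 * z + dg d) % 5 = dg d := by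
    have := dg_lt d
    omega
  rw [h1, ud_dg]

theorem dg_emod (d : Option Γ') : (dg d : ℤ) % 5 = dg d := by
  have := dg_lt d
  omega

theorem dg_ud (z : ℤ) (h0 : 0 ≤ z) (h1 : z < 5) : (dg (ud z) : ℤ) = z := by
  have : z = 0 ∨ z = 1 ∨ z = 2 ∨ z = 3 ∨ z = 4 := by omega
  rcases this with rfl | rfl | rfl | rfl | rfl <;> simp [ud, dg]

theorem ediv_dg (z : ℤ) (d : Option Γ') : (5 * z + dg d) / 5 = z := by
  have := dg_lt d
  omega

/-- the rules -/
def rule : Ix → Rule St K'
  | ((.push k f q, v), _) => ⟨some (.push k f q, v), k, 1, 0, some (q, v), 5, dg (some (f v))⟩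
  | ((.peek k f q, v), d) => ⟨some (.peek k f q, v), k, 5, dg d, some (q, f v d), 5, dg d⟩
  | ((.pop k f q, v), d) => ⟨some (.pop k f q, v), k, 5, dg d, some (q, f v d), 1, 0⟩
  | ((.load a q, v), _) => ⟨some (.load a q, v), K'.main, 1, 0, some (q, a v), 1, 0⟩
  | ((.branch f q₁ q₂, v), _) =>
    ⟨some (.branch f q₁ q₂, v), K'.main, 1, 0, some (cond (f v) q₁ q₂, v), 1, 0⟩
  | ((.goto l, v), _) => ⟨some (.goto l, v), K'.main, 1, 0, some (prog (l v), v), 1, 0⟩
  | ((.halt, v), _) => ⟨some (.halt, v), K'.main, 1, 0, none, 1, 0⟩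

/-- the step function on all integer vectors -/
def stepF : St × (K' → ℤ) → Option (St × (K' → ℤ))
  | (none, _) => none
  | (some (.push k f q, v), y) => some (some (q, v), update y k (5 * y k + dg (some (f v))))
  | (some (.peek k f q, v), y) => some (some (q, f v (ud (y k % 5))), y)
  | (some (.pop k f q, v), y) => some (some (q, f v (ud (y k % 5))), update y k (y k / 5))
  | (some (.load a q, v), y) => some (some (q, a v), y)
  | (some (.branch f q₁ q₂, v), y) => some (some (cond (f v) q₁ q₂, v), y)
  | (some (.goto l, v), y) => some (some (prog (l v), v), y)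
  | (some (.halt, v), y) => some (none, y)

theorem rule_s (i : Ix) : (rule i).s = some i.1 := by
  rcases i with ⟨⟨q, v⟩, d⟩
  cases q <;> rfl

theorem rule_c (i : Ix) : (rule i).c < (rule i).p := by
  rcases i with ⟨⟨q, v⟩, d⟩
  cases q <;> simp [rule, dg_lt]

theorem rule_c' (i : Ix) : (rule i).c' < (rule i).p' := by
  rcases i with ⟨⟨q, v⟩, d⟩
  cases q <;> simp [rule, dg_lt]

/-- Every instance of a rule is a step. -/
theorem stepF_rule (i : Ix) (y : K' → ℤ) :
    stepF ((rule i).s, update y (rule i).k ((rule i).p * y (rule i).k + (rule i).c)) =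
      some ((rule i).s', update y (rule i).k ((rule i).p' * y (rule i).k + (rule i).c')) := by
  rcases i with ⟨⟨q, v⟩, d⟩
  cases q <;> simp [rule, stepF, dg_emod, ud_dg, ediv_dg]

theorem update_ediv (y : K' → ℤ) (k : K') :
    update (update y k (y k / 5)) k (5 * (update y k (y k / 5)) k + dg (ud (y k % 5))) = y := by
  have h1 : (0 : ℤ) ≤ y k % 5 := Int.emod_nonneg _ (by norm_num)
  have h2 : y k % 5 < 5 := Int.emod_lt_of_pos _ (by norm_num)
  rw [dg_ud _ h1 h2, update_self, update_idem]
  have h3 : 5 * (y k / 5) + y k % 5 = y k := Int.mul_ediv_add_emod _ _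
  rw [h3, update_eq_self]

/-- Every step is an instance of a rule. -/
theorem exists_rule (a b : St × (K' → ℤ)) (h : stepF a = some b) :
    ∃ (i : Ix) (y : K' → ℤ), some i.1 = a.1 ∧
      a = ((rule i).s, update y (rule i).k ((rule i).p * y (rule i).k + (rule i).c)) ∧
      b = ((rule i).s', update y (rule i).k ((rule i).p' * y (rule i).k + (rule i).c')) := by
  rcases a with ⟨_ | ⟨q, v⟩, y⟩
  · simp [stepF] at h
  cases q with
  | push k f q =>
    refine ⟨((.push k f q, v), none), y, rfl, ?_, ?_⟩
    · simp [rule]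
    · simpa [rule, stepF] using h.symm
  | peek k f q =>
    refine ⟨((.peek k f q, v), ud (y k % 5)), update y k (y k / 5), rfl, ?_, ?_⟩
    · exact Prod.ext rfl (update_ediv y k).symm
    · simp only [stepF, Option.some.injEq] at h
      subst h
      exact Prod.ext rfl (update_ediv y k).symm
  | pop k f q =>
    refine ⟨((.pop k f q, v), ud (y k % 5)), update y k (y k / 5), rfl, ?_, ?_⟩
    · exact Prod.ext rfl (update_ediv y k).symm
    · simp only [stepF, Option.some.injEq] at h
      subst h
      simp [rule]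
  | load a q =>
    refine ⟨((.load a q, v), none), y, rfl, ?_, ?_⟩
    · simp [rule]
    · simpa [rule, stepF] using h.symm
  | branch f q₁ q₂ =>
    refine ⟨((.branch f q₁ q₂, v), none), y, rfl, ?_, ?_⟩
    · simp [rule]
    · simpa [rule, stepF] using h.symm
  | goto l =>
    refine ⟨((.goto l, v), none), y, rfl, ?_, ?_⟩
    · simp [rule]
    · simpa [rule, stepF] using h.symm
  | halt =>
    refine ⟨((.halt, v), none), y, rfl, ?_, ?_⟩
    · simp [rule]
    · simpa [rule, stepF] using h.symm

/-! ### Finitely many states -/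

/-- the states that matter -/
def fs (c : ToPartrec.Code) : Set St :=
  {s | ∀ q v, s = some (q, v) → some q ∈ TM2.stmts prog (codeSupp c Cont'.halt)}

theorem fs_finite (c : ToPartrec.Code) : (fs c).Finite := by
  classical
  have h1 : (fs c) ⊆ (fun o : Option (Option Sm × Option Γ') =>
      o.bind (fun x => x.1.map (fun q => (q, x.2)))) ''
      (↑(Finset.insertNone ((TM2.stmts prog (codeSupp c Cont'.halt)) ×ˢ
        (Finset.univ : Finset (Option Γ')))) : Set (Option (Option Sm × Option Γ'))) := by
    rintro (_ | ⟨q, v⟩) h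
    · exact ⟨none, by simp, rfl⟩
    · refine ⟨some (some q, v), ?_, rfl⟩
      have := h q v rfl
      simpa using this
  exact (Set.Finite.image _ (Finset.finite_toSet _)).subset h1

theorem none_mem_fs (c : ToPartrec.Code) : none ∈ fs c := by
  intro q v h
  simp at h

theorem tr_mem_fs (c : ToPartrec.Code) {l : Λ'} (hl : l ∈ codeSupp c Cont'.halt) (v : Option Γ') :
    some (prog l, v) ∈ fs c := by
  intro q v' h
  simp only [Option.some.injEq, Prod.mk.injEq] at h
  obtain ⟨rfl, rfl⟩ := h
  simp only [TM2.stmts, Finset.mem_insertNone, Finset.mem_biUnion, Option.mem_def,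
    Option.some.injEq, forall_eq']
  exact ⟨l, hl, TM2.stmts₁_self⟩

theorem rule_mem_fs (c : ToPartrec.Code) (i : Ix) (h : some i.1 ∈ fs c) : (rule i).s' ∈ fs c := by
  rcases i with ⟨⟨q, v⟩, d⟩
  have h0 := h q v rfl
  have key : ∀ q' : Sm, q' ∈ TM2.stmts₁ q → ∀ v', some (q', v') ∈ fs c := by
    intro q' hq' v' q'' v'' h''
    simp only [Option.some.injEq, Prod.mk.injEq] at h''
    obtain ⟨rfl, rfl⟩ := h''
    exact TM2.stmts_trans hq' h0
  cases q with
  | push k f q => exact key _ (by simp [TM2.stmts₁, TM2.stmts₁_self]) _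
  | peek k f q => exact key _ (by simp [TM2.stmts₁, TM2.stmts₁_self]) _
  | pop k f q => exact key _ (by simp [TM2.stmts₁, TM2.stmts₁_self]) _
  | load a q => exact key _ (by simp [TM2.stmts₁, TM2.stmts₁_self]) _
  | branch f q₁ q₂ =>
    refine key (cond (f v) q₁ q₂) ?_ v
    cases f v <;> simp [TM2.stmts₁, TM2.stmts₁_self]
  | goto l =>
    have h1 := @TM2.stmts_supportsStmt _ _ _ _ ⟨trNormal c Cont'.halt⟩ _ _ _
      (tr_supports c Cont'.halt) h0
    exact tr_mem_fs c (h1 v) _
  | halt => exact none_mem_fs c

/-- the start state -/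
def s0 (c : ToPartrec.Code) : St := some (prog (trNormal c Cont'.halt), none)

theorem s0_mem_fs (c : ToPartrec.Code) : s0 c ∈ fs c :=
  tr_mem_fs c (tr_supports c Cont'.halt).1 _

/-! ### Simulation -/

/-- integer coding a stack -/
def nm : List Γ' → ℕ
  | [] => 0
  | a :: l => 5 * nm l + dg (some a)

/-- vector coding four stacks -/
def enc (S : K' → List Γ') : K' → ℤ := fun k => nm (S k)

theorem dg_none_iff (d : Option Γ') : dg d = 0 ↔ d = none := by
  rcases d with _ | (_ | _ | _ | _) <;> simp [dg]

theorem ud_nm (l : List Γ') : ud ((nm l : ℤ) % 5) = l.head? := by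
  cases l with
  | nil => simp [nm, ud]
  | cons a l =>
    simp only [nm, List.head?_cons]
    push_cast
    exact ud_emod _ _

theorem nm_div (l : List Γ') : (nm l : ℤ) / 5 = nm l.tail := by
  cases l with
  | nil => simp [nm]
  | cons a l =>
    simp only [nm, List.tail_cons]
    push_cast
    exact ediv_dg _ _

theorem enc_update (S : K' → List Γ') (k : K') (l : List Γ') :
    enc (update S k l) = update (enc S) k (nm l : ℤ) := by
  funext j
  by_cases h : j = k
  · subst h
    simp [enc]
  · simp [enc, h]

/-- translation of configurations -/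
def trc : Cf → St × (K' → ℤ)
  | ⟨some l, v, S⟩ => (some (prog l, v), enc S)
  | ⟨none, _, S⟩ => (none, enc S)

theorem sim (q : Sm) : ∀ (v : Option Γ') (S : K' → List Γ'),
    Reaches₁ stepF (some (q, v), enc S) (trc (TM2.stepAux q v S)) := by
  induction q with
  | push k f q ih =>
    intro v S
    refine Relation.TransGen.head ?_ (ih v _)
    simp [stepF, enc_update, enc, nm]
  | peek k f q ih =>
    intro v S
    refine Relation.TransGen.head ?_ (ih _ _)
    simp [stepF, enc, ud_nm]
  | pop k f q ih =>
    intro v S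
    refine Relation.TransGen.head ?_ (ih _ _)
    simp [stepF, enc_update, enc, ud_nm, nm_div]
  | load a q ih =>
    intro v S
    refine Relation.TransGen.head ?_ (ih _ _)
    simp [stepF]
  | branch f q₁ q₂ ih₁ ih₂ =>
    intro v S
    cases h : f v
    · refine Relation.TransGen.head ?_ (by simp only [TM2.stepAux, h]; exact ih₂ v S)
      simp [stepF, h]
    · refine Relation.TransGen.head ?_ (by simp only [TM2.stepAux, h]; exact ih₁ v S)
      simp [stepF, h]
  | goto l =>
    intro v S
    refine Relation.TransGen.single ?_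
    simp [stepF, trc]
  | halt =>
    intro v S
    refine Relation.TransGen.single ?_
    simp [stepF, trc]

theorem respects : Respects (TM2.step prog) stepF (fun a b => trc a = b) := by
  rintro ⟨_ | l, v, S⟩ _ rfl
  · simp [TM2.step, trc, stepF]
  · simp only [TM2.step]
    exact ⟨_, rfl, sim _ _ _⟩

/-- The start vector. -/
def yv (v : List ℕ) : K' → ℤ := update 0 K'.main (nm (trList v) : ℤ)

/-- The initial configuration. -/
def ini (c : ToPartrec.Code) (v : List ℕ) : Cf :=
  ⟨some (trNormal c Cont'.halt), none, K'.elim (trList v) [] [] []⟩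

/-- The halting configurations. -/
def hlt (v : List ℕ) : Cf := ⟨none, none, K'.elim (trList v) [] [] []⟩

theorem eval_ini (c : ToPartrec.Code) (v : List ℕ) :
    StateTransition.eval (TM2.step prog) (ini c v) = hlt <$> c.eval v :=
  PartrecToTM2.tr_eval c v

theorem trc_ini (c : ToPartrec.Code) (v : List ℕ) : trc (ini c v) = (s0 c, yv v) := by
  refine Prod.ext rfl ?_
  funext k
  cases k <;> simp [trc, ini, enc, yv, nm]

theorem halts_dom (c : ToPartrec.Code) (v : List ℕ) :
    (eval stepF (s0 c, yv v)).Dom ↔ (c.eval v).Dom := by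
  rw [← trc_ini, StateTransition.tr_eval_dom respects rfl, eval_ini]
  rfl

theorem halts_reach (c : ToPartrec.Code) (v : List ℕ) (h : c.eval v = pure []) :
    Reaches stepF (s0 c, yv v) (none, 0) := by
  have h1 : hlt [] ∈ eval (TM2.step prog) (ini c v) := by
    rw [eval_ini, h]
    simp
  obtain ⟨b, hb, hb'⟩ := StateTransition.tr_eval respects rfl h1
  rw [mem_eval, trc_ini] at hb'
  convert hb'.1 using 1
  rw [← hb]
  refine Prod.ext rfl ?_
  funext k
  cases k <;> simp [trc, hlt, enc, nm]

end Pool.Agent.W_MP_b13100_lc
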