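import Pool.Agent.W_MP_b13100_lc.Machine

/-! A permutation group in which the words attached to non-halting configurations survive. -/

namespace Pool.Agent.W_MP_b13100_lc

open Function

/-- generators of the group attached to an affine machine -/
inductive Gen (K S I : Type) : Type
  /-- stack generators -/
  | x (k : K)
  /-- state generators -/
  | t (s : S)
  /-- rule generators -/
  | r (i : I)
  /-- the test generator -/
  | kap

/-- The relations, for an assignment of elements of a group to the generators. -/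
structure Rels {K S I : Type} (rules : I → Rule S K) (h : S) {G : Type} [Group G]
    (val : Gen K S I → G) : Prop where
  comm : ∀ i j, Commute (val (.x i)) (val (.x j))
  kt : Commute (val .kap) (val (.t h))
  kr : ∀ i, Commute (val .kap) (val (.r i))
  rx : ∀ i, (val (.x (rules i).k)) ^ (rules i).p * val (.r i) =
    val (.r i) * (val (.x (rules i).k)) ^ (rules i).p'
  rxj : ∀ i j, j ≠ (rules i).k → Commute (val (.r i)) (val (.x j))
  rt : ∀ i, (val (.x (rules i).k) ^ (rules i).c * val (.t (rules i).s) *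
      (val (.x (rules i).k) ^ (rules i).c)⁻¹) * val (.r i) =
    val (.r i) * (val (.x (rules i).k) ^ (rules i).c' * val (.t (rules i).s') *
      (val (.x (rules i).k) ^ (rules i).c')⁻¹)

section Fibres

variable {L : Type}

/-- an absorbing type -/
abbrev Rr (L : Type) : Type := (ℕ → Set L) × ℕ

/-- labels -/
abbrev Jj (L : Type) : Type := Set L × Rr L

theorem fib_equiv (p : ℕ) (hp : 0 < p) (φ : Fin p → L → L) (hφ : ∀ a, Injective (φ a))
    (v : Set L) :
    Nonempty ({x : Fin p × Jj L // {z | φ x.1 z ∈ x.2.1} = v} ≃ Rr L) := by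
  refine Function.Embedding.antisymm ?_ ?_
  · refine ⟨fun x => (fun n => Nat.casesOn n x.1.2.1 x.1.2.2.1, Nat.pair x.1.1 x.1.2.2.2), ?_⟩
    rintro ⟨⟨a, E, f, n⟩, h⟩ ⟨⟨a', E', f', n'⟩, h'⟩ he
    simp only [Prod.mk.injEq, Nat.pair_eq_pair] at he
    obtain ⟨h1, h2, h3⟩ := he
    have h4 : E = E' := congrFun h1 0
    have h5 : f = f' := funext fun n => congrFun h1 (n + 1)
    have h6 : a = a' := Fin.ext h2
    subst h4 h5 h6 h3
    rfl
  · refine ⟨fun r => ⟨(⟨0, hp⟩, (φ ⟨0, hp⟩ '' v, r)), ?_⟩, ?_⟩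
    · ext z
      simp only [Set.mem_ofPred_eq]
      exact (hφ _).mem_set_image
    · intro r r' h
      simpa using h

theorem exists_beta {p p' : ℕ} (φ : Fin p → L → L) (hφ : ∀ a, Injective (φ a))
    (φ' : Fin p' → L → L) (hφ' : ∀ a, Injective (φ' a))
    (x0 : Fin p' × Jj L) (y0 : Fin p × Jj L)
    (h0 : ∀ z, φ' x0.1 z ∈ x0.2.1 ↔ φ y0.1 z ∈ y0.2.1) :
    ∃ β : Fin p' × Jj L ≃ Fin p × Jj L,
      (∀ x z, φ (β x).1 z ∈ (β x).2.1 ↔ φ' x.1 z ∈ x.2.1) ∧ β x0 = y0 := by
  classical
  have hp : 0 < p := Fin.pos y0.1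
  have hp' : 0 < p' := Fin.pos x0.1
  let f : Fin p' × Jj L → Set L := fun x => {z | φ' x.1 z ∈ x.2.1}
  let g : Fin p × Jj L → Set L := fun x => {z | φ x.1 z ∈ x.2.1}
  have he : ∀ v, Nonempty ({x // f x = v} ≃ {y // g y = v}) := fun v =>
    ⟨(fib_equiv p' hp' φ' hφ' v).some.trans (fib_equiv p hp φ hφ v).some.symm⟩
  let β₀ : Fin p' × Jj L ≃ Fin p × Jj L :=
    (Equiv.sigmaFiberEquiv f).symm.trans
      ((Equiv.sigmaCongrRight fun v => (he v).some).trans (Equiv.sigmaFiberEquiv g))
  have hβ₀ : ∀ x, g (β₀ x) = f x := by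
    intro x
    exact ((he (f x)).some ⟨x, rfl⟩).2
  have h00 : g (β₀ x0) = g y0 := by
    rw [hβ₀]
    ext z
    exact h0 z
  refine ⟨β₀.trans (Equiv.swap (β₀ x0) y0), ?_, ?_⟩
  · have h1 : ∀ x, g ((β₀.trans (Equiv.swap (β₀ x0) y0)) x) = f x := by
      intro x
      rw [Equiv.trans_apply]
      by_cases hx : β₀ x = β₀ x0
      · rw [hx, Equiv.swap_apply_left, ← h00, ← hx, hβ₀]
      · by_cases hx' : β₀ x = y0
        · rw [hx', Equiv.swap_apply_right, h00, ← hx', hβ₀]
        · rw [Equiv.swap_apply_of_ne_of_ne hx hx', hβ₀]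
    intro x z
    have := h1 x
    exact iff_of_eq (congrFun this z)
  · simp

end Fibres

section

variable {K : Type} [DecidableEq K]

/-- the affine map `z_k ↦ p z_k + a` -/
def aff (k : K) (p : ℕ) (a : ℕ) (z : K → ℤ) : K → ℤ := update z k (p * z k + a)

theorem aff_injective (k : K) {p : ℕ} (hp : 0 < p) (a : ℕ) : Injective (aff k p a) := by
  intro z z' h
  funext j
  have h1 := congrFun h j
  by_cases hj : j = k
  · subst hj
    simp only [aff, update_self] at h1
    have h2 : (p : ℤ) * z j = p * z' j := by omega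
    exact mul_left_cancel₀ (by exact_mod_cast hp.ne') h2
  · simpa [aff, hj] using h1

/-- splitting off the last digit -/
def dec (k : K) (p : ℕ) [NeZero p] : (K → ℤ) ≃ (K → ℤ) × Fin p where
  toFun y := (update y k (y k / p), ⟨(y k % p).toNat, by
    have hp : (0 : ℤ) < p := by exact_mod_cast (Nat.pos_of_ne_zero (NeZero.ne p))
    have h1 := Int.emod_lt_of_pos (y k) hp
    have h2 := Int.emod_nonneg (y k) hp.ne'
    omega⟩)
  invFun x := aff k p x.2 x.1
  left_inv y := by
    have hp : (0 : ℤ) < p := by exact_mod_cast (Nat.pos_of_ne_zero (NeZero.ne p))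
    have h2 := Int.emod_nonneg (y k) hp.ne'
    funext j
    by_cases hj : j = k
    · subst hj
      simp only [aff, update_self, Int.toNat_of_nonneg h2]
      exact Int.mul_ediv_add_emod _ _
    · simp [aff, hj]
  right_inv := by
    rintro ⟨z, a⟩
    have hp : (0 : ℤ) < p := by exact_mod_cast (Nat.pos_of_ne_zero (NeZero.ne p))
    have ha : (a : ℤ) < p := by exact_mod_cast a.2
    have h1 : ((p : ℤ) * z k + a) / p = z k := by
      rw [Int.mul_add_ediv_left _ _ hp.ne', Int.ediv_eq_zero_of_lt (by positivity) ha, add_zero]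
    have h2 : ((p : ℤ) * z k + a) % p = a := by
      rw [Int.mul_add_emod_self_left, Int.emod_eq_of_lt (by positivity) ha]
    refine Prod.ext ?_ (Fin.ext ?_)
    · simp only [aff, update_self, h1, update_idem, update_eq_self]
    · simp only [aff, update_self, h2, Int.toNat_natCast]

theorem aff_add_self (k : K) (p a : ℕ) (z : K → ℤ) :
    aff k p a (z + Pi.single k 1) = aff k p a z + Pi.single k (p : ℤ) := by
  funext j
  by_cases hj : j = k
  · subst hj
    simp only [aff, update_self, Pi.add_apply, Pi.single_eq_same]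
    ring
  · simp [aff, hj]

theorem aff_add_ne {k j : K} (hjk : j ≠ k) (p a : ℕ) (z : K → ℤ) :
    aff k p a (z + Pi.single j 1) = aff k p a z + Pi.single j 1 := by
  funext i
  by_cases hi : i = k
  · subst hi
    simp [aff, hjk.symm]
  · simp [aff, hi]

/-- the coloured set -/
abbrev Lam (K : Type) : Type := (K → ℤ) × Jj (K → ℤ)

/-- the coloured part -/
def hatD (K : Type) : Set (Lam K) := {l | l.1 ∈ l.2.1}

/-- translations -/
def tra (y : K → ℤ) : Equiv.Perm (Lam K) := (Equiv.addRight y).prodCongr (Equiv.refl _)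

theorem tra_apply (y : K → ℤ) (l : Lam K) : tra y l = (l.1 + y, l.2) := rfl

theorem tra_mul (y y' : K → ℤ) : tra y * tra y' = tra (y + y') := by
  ext1 l
  simp only [Equiv.Perm.mul_apply, tra_apply, Prod.mk.injEq, and_true]
  abel

theorem tra_zero : tra (0 : K → ℤ) = 1 := by
  ext1 l
  simp [tra_apply]

theorem tra_pow (k : K) (n : ℕ) : tra (Pi.single k 1 : K → ℤ) ^ n = tra (Pi.single k (n : ℤ)) := by
  induction n with
  | zero => simp [tra_zero]
  | succ n ih =>
    rw [pow_succ, ih, tra_mul, ← Pi.single_add]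
    simp

theorem exists_r (k : K) {p p' : ℕ} {c c' : ℕ} (hc : c < p) (hc' : c' < p')
    (E E' : Set (K → ℤ)) (h0 : ∀ z, aff k p c z ∈ E ↔ aff k p' c' z ∈ E') (r0 : Rr (K → ℤ)) :
    ∃ r : Equiv.Perm (Lam K),
      (∀ l, tra (Pi.single k (p : ℤ)) (r l) = r (tra (Pi.single k (p' : ℤ)) l)) ∧
      (∀ j, j ≠ k → ∀ l, tra (Pi.single j 1) (r l) = r (tra (Pi.single j 1) l)) ∧
      (∀ l, r l ∈ hatD K ↔ l ∈ hatD K) ∧
      r (Pi.single k (c' : ℤ), (E', r0)) = (Pi.single k (c : ℤ), (E, r0)) := by
  have hp : 0 < p := by omega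
  have hp' : 0 < p' := by omega
  have : NeZero p := ⟨hp.ne'⟩
  have : NeZero p' := ⟨hp'.ne'⟩
  obtain ⟨β, hβ, hβ0⟩ := exists_beta (L := K → ℤ) (p := p) (p' := p')
    (fun a => aff k p a) (fun a => aff_injective k hp a)
    (fun a => aff k p' a) (fun a => aff_injective k hp' a)
    (⟨c', hc'⟩, (E', r0)) (⟨c, hc⟩, (E, r0)) (fun z => (h0 z).symm)
  let r : Equiv.Perm (Lam K) :=
    (((dec k p').prodCongr (Equiv.refl (Jj (K → ℤ)))).trans (Equiv.prodAssoc _ _ _)).trans
      (((Equiv.refl (K → ℤ)).prodCongr β).trans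
        (((dec k p).prodCongr (Equiv.refl (Jj (K → ℤ)))).trans (Equiv.prodAssoc _ _ _)).symm)
  have key : ∀ z (a : Fin p') j, r (aff k p' a z, j) =
      (aff k p (β (a, j)).1 z, (β (a, j)).2) := by
    intro z a j
    have h1 : dec k p' (aff k p' a z) = (z, a) := (dec k p').apply_symm_apply (z, a)
    simp only [r, Equiv.trans_apply, Equiv.prodCongr_apply, Prod.map_apply, h1, Equiv.refl_apply,
      Equiv.prodAssoc_apply]
    rfl
  have surj : ∀ l : Lam K, ∃ z, ∃ a : Fin p', l = (aff k p' a z, l.2) := by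
    intro l
    refine ⟨(dec k p' l.1).1, (dec k p' l.1).2, ?_⟩
    exact Prod.ext ((dec k p').symm_apply_apply l.1).symm rfl
  refine ⟨r, ?_, ?_, ?_, ?_⟩
  · intro l
    obtain ⟨z, a, hl⟩ := surj l
    rw [hl, tra_apply, tra_apply]
    simp only
    rw [← aff_add_self, key, key, ← aff_add_self]
  · intro j hj l
    obtain ⟨z, a, hl⟩ := surj l
    rw [hl, tra_apply, tra_apply]
    simp only
    rw [← aff_add_ne hj, key, key, ← aff_add_ne hj]
  · intro l
    obtain ⟨z, a, hl⟩ := surj l
    rw [hl, key]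
    exact hβ (a, l.2) z
  · have h1 : (Pi.single k (c' : ℤ) : K → ℤ) = aff k p' (⟨c', hc'⟩ : Fin p') 0 := by
      funext j
      by_cases hj : j = k
      · subst hj
        simp [aff]
      · simp [aff, hj]
    have h2 : (Pi.single k (c : ℤ) : K → ℤ) = aff k p (⟨c, hc⟩ : Fin p) 0 := by
      funext j
      by_cases hj : j = k
      · subst hj
        simp [aff]
      · simp [aff, hj]
    rw [h1, key, hβ0, h2]

/-- permutation acting in the fibres -/
def fb (f : Lam K → Equiv.Perm (Fin 3)) : Equiv.Perm (Lam K × Fin 3) := Equiv.prodCongrRight f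

/-- lift of a permutation of the base -/
def lf : Equiv.Perm (Lam K) →* Equiv.Perm (Lam K × Fin 3) where
  toFun g := g.prodCongr (Equiv.refl _)
  map_one' := by
    ext1 x
    simp
  map_mul' g g' := by
    ext1 x
    simp [Prod.map]

theorem lf_apply (g : Equiv.Perm (Lam K)) (x : Lam K × Fin 3) : lf g x = (g x.1, x.2) := rfl

theorem fb_apply (f : Lam K → Equiv.Perm (Fin 3)) (x : Lam K × Fin 3) :
    fb f x = (x.1, f x.1 x.2) := rfl

theorem lf_fb (g : Equiv.Perm (Lam K)) (f f' : Lam K → Equiv.Perm (Fin 3))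
    (h : ∀ l, f' (g l) = f l) : lf g * fb f = fb f' * lf g := by
  ext1 x
  simp only [Equiv.Perm.mul_apply, lf_apply, fb_apply, h]

theorem swap_not_comm : ¬ Commute (Equiv.swap 1 2 : Equiv.Perm (Fin 3)) (Equiv.swap 0 1) := by
  intro h
  have h1 : (Equiv.swap 1 2 * Equiv.swap 0 1 : Equiv.Perm (Fin 3)) 0 =
    (Equiv.swap 0 1 * Equiv.swap 1 2 : Equiv.Perm (Fin 3)) 0 := by rw [h.eq]
  revert h1
  decide

/-- The group attached to the machine has a quotient in which nothing unnecessary commutes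
with `kap`. -/
theorem exists_model {S I : Type} (rules : I → Rule S K) (h : S)
    (hc : ∀ i, (rules i).c < (rules i).p) (hc' : ∀ i, (rules i).c' < (rules i).p')
    (D : S → Set (K → ℤ)) (hD0 : 0 ∈ D h)
    (hD : ∀ i z, aff (rules i).k (rules i).p (rules i).c z ∈ D (rules i).s ↔
      aff (rules i).k (rules i).p' (rules i).c' z ∈ D (rules i).s') :
    ∃ (G : Type) (_ : Group G) (val : Gen K S I → G), Rels rules h val ∧
      ∀ s k (n : ℕ), Pi.single k (n : ℤ) ∉ D s →
        ¬ Commute (val .kap) (val (.x k) ^ n * val (.t s) * (val (.x k) ^ n)⁻¹) := by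
  classical
  let r0 : Rr (K → ℤ) := (fun _ => ∅, 0)
  choose r hr1 hr2 hr3 hr4 using fun i => exists_r (rules i).k (hc i) (hc' i)
    (D (rules i).s) (D (rules i).s') (hD i) r0
  let base : S → Lam K := fun s => (0, (D s, r0))
  let σ : Equiv.Perm (Fin 3) := Equiv.swap 0 1
  let τ : Equiv.Perm (Fin 3) := Equiv.swap 1 2
  have hστ : ¬ Commute τ σ := swap_not_comm
  let tf : Lam K → Lam K → Equiv.Perm (Fin 3) := fun b l => if l = b then σ else 1
  let kf : Lam K → Equiv.Perm (Fin 3) := fun l => if l ∈ hatD K then 1 else τ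
  let val : Gen K S I → Equiv.Perm (Lam K × Fin 3) := fun g =>
    match g with
    | .x k => lf (tra (Pi.single k 1))
    | .t s => fb (tf (base s))
    | .r i => lf (r i)
    | .kap => fb kf
  have hx : ∀ k (n : ℕ), val (.x k) ^ n = lf (tra (Pi.single k (n : ℤ))) := by
    intro k n
    change (lf (tra (Pi.single k 1))) ^ n = _
    rw [← map_pow, tra_pow]
  have ht : ∀ k (n : ℕ) s, val (.x k) ^ n * val (.t s) * (val (.x k) ^ n)⁻¹ =
      fb (tf (Pi.single k (n : ℤ), (D s, r0))) := by
    intro k n s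
    rw [hx, mul_inv_eq_iff_eq_mul]
    apply lf_fb
    intro l
    have h1 : (tra (Pi.single k (n : ℤ))) l = (Pi.single k (n : ℤ), (D s, r0)) ↔ l = base s := by
      rw [tra_apply]
      constructor
      · intro h1
        simp only [Prod.mk.injEq, add_eq_right] at h1
        exact Prod.ext h1.1 h1.2
      · intro h1
        rw [h1]
        simp [base]
    simp only [tf, h1]
  refine ⟨Equiv.Perm (Lam K × Fin 3), inferInstance, val, ⟨?_, ?_, ?_, ?_, ?_, ?_⟩, ?_⟩
  · intro i j
    change lf (tra _) * lf (tra _) = lf (tra _) * lf (tra _)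
    rw [← map_mul, ← map_mul, tra_mul, tra_mul, add_comm]
  · change fb kf * fb (tf (base h)) = fb (tf (base h)) * fb kf
    ext1 x
    simp only [Equiv.Perm.mul_apply, fb_apply, Prod.mk.injEq, true_and]
    by_cases h1 : x.1 = base h
    · have h2 : x.1 ∈ hatD K := by
        rw [h1]
        exact hD0
      simp [kf, h2]
    · simp [tf, h1]
  · intro i
    change fb kf * lf (r i) = lf (r i) * fb kf
    symm
    apply lf_fb
    intro l
    simp only [kf, hr3]
  · intro i
    rw [hx, hx]
    change lf _ * lf (r i) = lf (r i) * lf _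
    rw [← map_mul, ← map_mul]
    congr 1
    ext1 l
    exact hr1 i l
  · intro i j hj
    change lf (r i) * lf _ = lf _ * lf (r i)
    rw [← map_mul, ← map_mul]
    congr 1
    ext1 l
    exact (hr2 i j hj l).symm
  · intro i
    rw [ht, ht]
    symm
    apply lf_fb
    intro l
    have h1 : r i l = (Pi.single (rules i).k ((rules i).c : ℤ), (D (rules i).s, r0)) ↔
        l = (Pi.single (rules i).k ((rules i).c' : ℤ), (D (rules i).s', r0)) := by
      rw [← hr4]
      exact (r i).apply_eq_iff_eq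
    simp only [tf, h1]
  · intro s k n hn hcomm
    rw [ht] at hcomm
    apply hστ
    have h1 : (Pi.single k (n : ℤ), (D s, r0)) ∉ hatD K := hn
    ext1 z
    have h2 := congrArg (fun g : Equiv.Perm (Lam K × Fin 3) =>
      (g ((Pi.single k (n : ℤ), (D s, r0)), z)).2) hcomm
    change (fb kf (fb _ _)).2 = (fb _ (fb kf _)).2 at h2
    simp only [fb_apply, kf, tf, h1, if_true, if_false] at h2
    exact h2

end

end Pool.Agent.W_MP_b13100_lc
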