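import Mathlib

/-! Finite presentations coded by lists of natural numbers, and integrability of groups. -/

namespace Pool.Agent.W_MP_b13100_lc

universe u

/-- A finite presentation: the number `n` of generators and the list of relators; a relator is a
word, i.e. a list of letters `(i, b)`, read as `x_i` if `b = true` and as `x_i⁻¹` if `b = false`. -/
abbrev Pres : Type := ℕ × List (List (ℕ × Bool))

/-- Only the generators `x_0, …, x_{n-1}` occur in the relators. -/
def Valid (P : Pres) : Prop := ∀ r ∈ P.2, ∀ l ∈ r, l.1 < P.1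

/-- The element of the free group on `x_0, …, x_{n-1}` spelled by a letter. -/
def letter (n : ℕ) (l : ℕ × Bool) : FreeGroup (Fin n) :=
  if h : l.1 < n then
    (if l.2 then FreeGroup.of ⟨l.1, h⟩ else (FreeGroup.of ⟨l.1, h⟩)⁻¹)
  else 1

/-- The element of the free group on `x_0, …, x_{n-1}` spelled by a word. -/
def spell (n : ℕ) (w : List (ℕ × Bool)) : FreeGroup (Fin n) := (w.map (letter n)).prod

/-- The group given by the finite presentation. -/
abbrev Grp (P : Pres) : Type := PresentedGroup {g : FreeGroup (Fin P.1) | ∃ r ∈ P.2, g = spell P.1 r}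

/-- `G` is integrable: it is isomorphic to the derived subgroup of some group `H`. -/
def Integrable (G : Type) [Group G] : Prop :=
  ∃ (H : Type u) (_ : Group H), Nonempty (commutator H ≃* G)

/-! ### Values of words -/

/-- Value of an element of the free group on `ℕ`. -/
abbrev ev {G : Type*} [Group G] (v : ℕ → G) (w : List (ℕ × Bool)) : G :=
  FreeGroup.lift v (FreeGroup.mk w)

theorem ev_nil {G : Type*} [Group G] (v : ℕ → G) : ev v [] = 1 := by
  simp [ev]

theorem ev_cons {G : Type*} [Group G] (v : ℕ → G) (l : ℕ × Bool) (w : List (ℕ × Bool)) :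
    ev v (l :: w) = (if l.2 then v l.1 else (v l.1)⁻¹) * ev v w := by
  rcases l with ⟨i, b⟩
  cases b <;> simp [ev]

theorem ev_append {G : Type*} [Group G] (v : ℕ → G) (w w' : List (ℕ × Bool)) :
    ev v (w ++ w') = ev v w * ev v w' := by
  simp [ev]

theorem map_ev {G H : Type*} [Group G] [Group H] (f : G →* H) (v : ℕ → G) (w : List (ℕ × Bool)) :
    f (ev v w) = ev (fun i => f (v i)) w := by
  induction w with
  | nil => rw [ev_nil, ev_nil, map_one]
  | cons l w ih =>
    rw [ev_cons, ev_cons, map_mul, ih]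
    split_ifs <;> simp

theorem ev_toWord {G : Type*} [Group G] (v : ℕ → G) (g : FreeGroup ℕ) :
    ev v g.toWord = FreeGroup.lift v g := by
  rw [ev, FreeGroup.mk_toWord]

theorem ev_congr {G : Type*} [Group G] {v v' : ℕ → G} {w : List (ℕ × Bool)}
    (h : ∀ l ∈ w, v l.1 = v' l.1) : ev v w = ev v' w := by
  induction w with
  | nil => rw [ev_nil, ev_nil]
  | cons l w ih =>
    rw [ev_cons, ev_cons, h l (by simp), ih (fun l hl => h l (by simp [hl]))]

/-! ### Generators and universal property -/

variable {P : Pres}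

/-- the `i`-th generator (trivial if `i` is out of range) -/
def gen (P : Pres) (i : ℕ) : Grp P := if h : i < P.1 then PresentedGroup.of ⟨i, h⟩ else 1

theorem mk_spell (r : List (ℕ × Bool)) :
    (PresentedGroup.mk _ (spell P.1 r) : Grp P) = ev (gen P) r := by
  induction r with
  | nil =>
    have h1 : spell P.1 [] = 1 := by simp [spell]
    rw [h1, ev_nil]
    exact map_one _
  | cons l r ih =>
    have h1 : spell P.1 (l :: r) = letter P.1 l * spell P.1 r := by simp [spell]
    rw [h1, map_mul, ih, ev_cons]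
    congr 1
    rcases l with ⟨i, b⟩
    by_cases h : i < P.1
    · cases b <;> simp [letter, gen, h, PresentedGroup.of]
    · cases b <;> simp [letter, gen, h]

theorem ev_gen_rel {r : List (ℕ × Bool)} (hr : r ∈ P.2) : ev (gen P) r = 1 := by
  rw [← mk_spell]
  exact PresentedGroup.one_of_mem ⟨r, hr, rfl⟩

theorem lift_spell {G : Type*} [Group G] (v : ℕ → G) (hv : ∀ i, P.1 ≤ i → v i = 1)
    (r : List (ℕ × Bool)) :
    FreeGroup.lift (fun i : Fin P.1 => v i) (spell P.1 r) = ev v r := by
  induction r with
  | nil => simp [spell]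
  | cons l r ih =>
    have h1 : spell P.1 (l :: r) = letter P.1 l * spell P.1 r := by simp [spell]
    rw [h1, map_mul, ih, ev_cons]
    congr 1
    rcases l with ⟨i, b⟩
    by_cases h : i < P.1
    · cases b <;> simp [letter, h]
    · cases b <;> simp [letter, h, hv i (not_lt.1 h)]

/-- Universal property. -/
def Grp.lift {G : Type*} [Group G] (v : ℕ → G) (hv : ∀ i, P.1 ≤ i → v i = 1)
    (hr : ∀ r ∈ P.2, ev v r = 1) : Grp P →* G :=
  PresentedGroup.toGroup (f := fun i : Fin P.1 => v i) (by
    rintro _ ⟨r, h, rfl⟩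
    rw [lift_spell v hv]
    exact hr r h)

theorem Grp.lift_gen {G : Type*} [Group G] (v : ℕ → G) (hv : ∀ i, P.1 ≤ i → v i = 1)
    (hr : ∀ r ∈ P.2, ev v r = 1) (i : ℕ) : Grp.lift v hv hr (gen P i) = v i := by
  by_cases h : i < P.1
  · simp [Grp.lift, gen, h]
  · simp [gen, h, hv i (not_lt.1 h)]

theorem Grp.closure_gen (P : Pres) : Subgroup.closure (Set.range (gen P)) = ⊤ := by
  rw [eq_top_iff, ← PresentedGroup.closure_range_of]
  apply Subgroup.closure_mono
  rintro _ ⟨i, rfl⟩
  exact ⟨i, by simp [gen]⟩

theorem Grp.hom_ext {G : Type*} [Group G] {f g : Grp P →* G}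
    (h : ∀ i, i < P.1 → f (gen P i) = g (gen P i)) : f = g := by
  apply PresentedGroup.ext
  intro i
  simpa [gen] using h i i.2

theorem gen_eq_one (i : ℕ) (h : P.1 ≤ i) : gen P i = 1 := by
  simp [gen, not_lt.2 h]

end Pool.Agent.W_MP_b13100_lc
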