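import Pool.Agent.W_MP_b13100_lc.Input
import Pool.Agent.W_MP_b13100_lc.Derive
import Pool.Agent.W_MP_b13100_lc.Pres

/-! A finitely presented group with unsolvable word problem (Novikov, Boone), in the form needed
for coding: relators are words over natural numbers. -/

namespace Pool.Agent.W_MP_b13100_lc

open Turing Turing.PartrecToTM2 StateTransition Function

/-! ### The rules with finitely many states -/

/-- the finite type of states -/
abbrev Sf (c : ToPartrec.Code) : Type := ↥(fs c)

/-- the finite type of rules -/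
abbrev If (c : ToPartrec.Code) : Type := {i : Ix // some i.1 ∈ fs c}

/-- the rules between the states that matter -/
def rf (c : ToPartrec.Code) (i : If c) : Rule (Sf c) K' where
  s := ⟨some i.1.1, i.2⟩
  k := (rule i.1).k
  p := (rule i.1).p
  c := (rule i.1).c
  s' := ⟨(rule i.1).s', rule_mem_fs c i.1 i.2⟩
  p' := (rule i.1).p'
  c' := (rule i.1).c'

theorem reach_inst (c : ToPartrec.Code) {a b : St × (K' → ℤ)} (h : Reaches stepF a b) :
    ∀ ha : a.1 ∈ fs c, ∃ hb : b.1 ∈ fs c,
      Relation.ReflTransGen (Inst (rf c)) (⟨a.1, ha⟩, a.2) (⟨b.1, hb⟩, b.2) := by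
  induction h using Relation.ReflTransGen.head_induction_on with
  | refl => exact fun ha => ⟨ha, Relation.ReflTransGen.refl⟩
  | @head a a' hab _ ih =>
    intro ha
    obtain ⟨i, y, h1, h2, h3⟩ := exists_rule a a' hab
    have hi : some i.1 ∈ fs c := by rw [h1]; exact ha
    have ha' : a'.1 ∈ fs c := by
      rw [h3]
      exact rule_mem_fs c i hi
    obtain ⟨hb, h4⟩ := ih ha'
    refine ⟨hb, Relation.ReflTransGen.head ⟨⟨i, hi⟩, y, ?_, ?_⟩ h4⟩
    · refine Prod.ext (Subtype.ext h1.symm) ?_
      change a.2 = _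
      rw [h2]
      rfl
    · refine Prod.ext (Subtype.ext ?_) ?_
      · change a'.1 = _
        rw [h3]
        rfl
      · change a'.2 = _
        rw [h3]
        rfl

/-- halting sets -/
def Dh (c : ToPartrec.Code) (s : Sf c) : Set (K' → ℤ) := {y | (eval stepF (s.1, y)).Dom}

theorem Dh_rule (c : ToPartrec.Code) (i : If c) (z : K' → ℤ) :
    aff (rf c i).k (rf c i).p (rf c i).c z ∈ Dh c (rf c i).s ↔
      aff (rf c i).k (rf c i).p' (rf c i).c' z ∈ Dh c (rf c i).s' := by
  have h := stepF_rule i.1 z
  rw [rule_s] at h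
  have h1 := reaches_eval (f := stepF) (Relation.ReflTransGen.single h)
  exact iff_of_eq (congrArg Part.Dom h1)

/-! ### Words -/

instance : Fintype K' := ⟨{K'.main, K'.rev, K'.aux, K'.stack}, by intro x; cases x <;> simp⟩

instance (c : ToPartrec.Code) : Finite (Sf c) := (fs_finite c).to_subtype

instance (c : ToPartrec.Code) : Finite (If c) :=
  Finite.of_injective (β := Sf c × Option Γ') (fun i => (⟨some i.1.1, i.2⟩, i.1.2)) (by
    rintro ⟨⟨a, d⟩, h⟩ ⟨⟨a', d'⟩, h'⟩ he
    simp only [Prod.mk.injEq, Subtype.mk.injEq, Option.some.injEq] at he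
    obtain ⟨rfl, rfl⟩ := he
    rfl)

instance {K S I : Type} [Finite K] [Finite S] [Finite I] : Finite (Gen K S I) :=
  Finite.of_injective (β := (K ⊕ S) ⊕ (I ⊕ Unit)) (fun g => match g with
    | .x k => .inl (.inl k)
    | .t s => .inl (.inr s)
    | .r i => .inr (.inl i)
    | .kap => .inr (.inr ())) (by
    intro a b h
    cases a <;> cases b <;> simp_all)

open FreeGroup in
open Classical in
/-- the relators -/
noncomputable def relF {K S I : Type} (rules : I → Rule S K) (h : S) :
    ((K × K) ⊕ Unit) ⊕ (I ⊕ I) ⊕ ((I × K) ⊕ I) → FreeGroup (Gen K S I)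
  | .inl (.inl (i, j)) => of (.x i) * of (.x j) * (of (.x j) * of (.x i))⁻¹
  | .inl (.inr ()) => of .kap * of (.t h) * (of (.t h) * of .kap)⁻¹
  | .inr (.inl (.inl i)) => of .kap * of (.r i) * (of (.r i) * of .kap)⁻¹
  | .inr (.inl (.inr i)) => of (.x (rules i).k) ^ (rules i).p * of (.r i) *
      (of (.r i) * of (.x (rules i).k) ^ (rules i).p')⁻¹
  | .inr (.inr (.inl (i, j))) =>
      if j = (rules i).k then 1 else of (.r i) * of (.x j) * (of (.x j) * of (.r i))⁻¹
  | .inr (.inr (.inr i)) => (of (.x (rules i).k) ^ (rules i).c * of (.t (rules i).s) *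
      (of (.x (rules i).k) ^ (rules i).c)⁻¹) * of (.r i) *
      (of (.r i) * (of (.x (rules i).k) ^ (rules i).c' * of (.t (rules i).s') *
      (of (.x (rules i).k) ^ (rules i).c')⁻¹))⁻¹

theorem rels_iff {K S I : Type} (rules : I → Rule S K) (h : S) {G : Type} [Group G]
    (val : Gen K S I → G) :
    Rels rules h val ↔ ∀ ρ, FreeGroup.lift val (relF rules h ρ) = 1 := by
  constructor
  · rintro ⟨h1, h2, h3, h4, h5, h6⟩ ((⟨i, j⟩ | _) | (i | i) | (⟨i, j⟩ | i))
    · simp only [relF, map_mul, map_inv, FreeGroup.lift_apply_of]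
      rw [mul_inv_eq_one]
      exact h1 i j
    · simp only [relF, map_mul, map_inv, FreeGroup.lift_apply_of]
      rw [mul_inv_eq_one]
      exact h2
    · simp only [relF, map_mul, map_inv, FreeGroup.lift_apply_of]
      rw [mul_inv_eq_one]
      exact h3 i
    · simp only [relF, map_mul, map_inv, map_pow, FreeGroup.lift_apply_of]
      rw [mul_inv_eq_one]
      exact h4 i
    · by_cases hj : j = (rules i).k
      · simp [relF, hj]
      · simp only [relF, hj, if_false, map_mul, map_inv, FreeGroup.lift_apply_of]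
        rw [mul_inv_eq_one]
        exact h5 i j hj
    · simp only [relF, map_mul, map_inv, map_pow, FreeGroup.lift_apply_of]
      rw [mul_inv_eq_one]
      exact h6 i
  · intro H
    refine ⟨fun i j => ?_, ?_, fun i => ?_, fun i => ?_, fun i j hj => ?_, fun i => ?_⟩
    · have := H (.inl (.inl (i, j)))
      simp only [relF, map_mul, map_inv, FreeGroup.lift_apply_of] at this
      rwa [mul_inv_eq_one] at this
    · have := H (.inl (.inr ()))
      simp only [relF, map_mul, map_inv, FreeGroup.lift_apply_of] at this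
      rwa [mul_inv_eq_one] at this
    · have := H (.inr (.inl (.inl i)))
      simp only [relF, map_mul, map_inv, FreeGroup.lift_apply_of] at this
      rwa [mul_inv_eq_one] at this
    · have := H (.inr (.inl (.inr i)))
      simp only [relF, map_mul, map_inv, map_pow, FreeGroup.lift_apply_of] at this
      rwa [mul_inv_eq_one] at this
    · have := H (.inr (.inr (.inl (i, j))))
      simp only [relF, hj, if_false, map_mul, map_inv, FreeGroup.lift_apply_of] at this
      rwa [mul_inv_eq_one] at this
    · have := H (.inr (.inr (.inr i)))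
      simp only [relF, map_mul, map_inv, map_pow, FreeGroup.lift_apply_of] at this
      rwa [mul_inv_eq_one] at this

/-- letters of a word of the image of a map -/
theorem mem_toWord_map {α : Type} (f : α → ℕ) (g : FreeGroup α) :
    ∀ l ∈ (FreeGroup.map f g).toWord, ∃ a, l.1 = f a := by
  intro l hl
  induction g using Quot.inductionOn with
  | h L =>
    change l ∈ (FreeGroup.map f (FreeGroup.mk L)).toWord at hl
    rw [FreeGroup.map.mk, FreeGroup.toWord_mk] at hl
    have h1 := (FreeGroup.Red.sublist (FreeGroup.reduce.red (L := L.map fun x => (f x.1, x.2)))).subset hl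
    obtain ⟨x, _, rfl⟩ := List.mem_map.1 h1
    exact ⟨x.1, rfl⟩

theorem ev_pow_letter {G : Type} [Group G] (v : ℕ → G) (x n : ℕ) :
    ev v (List.replicate n (x, true)) = v x ^ n := by
  induction n with
  | zero => simp [ev_nil]
  | succ n ih =>
    rw [List.replicate_succ, ev_cons, ih, pow_succ']
    simp

theorem ev_pow_letter' {G : Type} [Group G] (v : ℕ → G) (x n : ℕ) :
    ev v (List.replicate n (x, false)) = (v x ^ n)⁻¹ := by
  induction n with
  | zero => simp [ev_nil]
  | succ n ih =>
    rw [List.replicate_succ, ev_cons, ih, pow_succ]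
    simp

/-- **Novikov–Boone theorem** in the form used here. -/
theorem novikov_boone : ∃ (m : ℕ) (R : List (List (ℕ × Bool))) (κ x t : ℕ),
    (∀ r ∈ R, ∀ l ∈ r, l.1 < m) ∧ κ < m ∧ x < m ∧ t < m ∧
    (∀ e, Hl e → ∀ (G : Type) (_ : Group G) (v : ℕ → G), (∀ r ∈ R, ev v r = 1) →
      Commute (v κ) (v x ^ inp e * v t * (v x ^ inp e)⁻¹)) ∧
    (∀ e, ¬ Hl e → ∃ (G : Type) (_ : Group G) (v : ℕ → G), (∀ r ∈ R, ev v r = 1) ∧
      ¬ Commute (v κ) (v x ^ inp e * v t * (v x ^ inp e)⁻¹)) := by
  classical
  obtain ⟨c, hc⟩ := exists_universal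
  let h : Sf c := ⟨none, none_mem_fs c⟩
  let s : Sf c := ⟨s0 c, s0_mem_fs c⟩
  have : Fintype (If c) := Fintype.ofFinite _
  let G₀ := Gen K' (Sf c) (If c)
  have hfin : Finite G₀ := inferInstance
  let m := Nat.card G₀
  let eqv : G₀ ≃ Fin m := Finite.equivFin G₀
  let num : G₀ → ℕ := fun g => (eqv g : ℕ)
  have hnum : ∀ g, num g < m := fun g => (eqv g).2
  let R : List (List (ℕ × Bool)) :=
    (Finset.univ : Finset (((K' × K') ⊕ Unit) ⊕ (If c ⊕ If c) ⊕ ((If c × K') ⊕ If c))).toList.map
      (fun ρ => (FreeGroup.map num (relF (rf c) h ρ)).toWord)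
  have hR : ∀ (G : Type) (_ : Group G) (v : ℕ → G), (∀ r ∈ R, ev v r = 1) ↔
      Rels (rf c) h (fun g => v (num g)) := by
    intro G _ v
    rw [rels_iff]
    have h1 : ∀ ρ, ev v ((FreeGroup.map num (relF (rf c) h ρ)).toWord) =
        FreeGroup.lift (fun g => v (num g)) (relF (rf c) h ρ) := by
      intro ρ
      rw [ev_toWord]
      have h2 : (FreeGroup.lift v).comp (FreeGroup.map num) =
          FreeGroup.lift (fun g => v (num g)) := by
        ext g
        simp
      exact DFunLike.congr_fun h2 _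
    constructor
    · intro H ρ
      rw [← h1]
      exact H _ (List.mem_map.2 ⟨ρ, by simp, rfl⟩)
    · intro H r hr
      obtain ⟨ρ, _, rfl⟩ := List.mem_map.1 hr
      rw [h1]
      exact H ρ
  refine ⟨m, R, num .kap, num (.x K'.main), num (.t s), ?_, hnum _, hnum _, hnum _, ?_, ?_⟩
  · intro r hr l hl
    obtain ⟨ρ, _, rfl⟩ := List.mem_map.1 hr
    obtain ⟨g, hg⟩ := mem_toWord_map _ _ l hl
    rw [hg]
    exact hnum g
  · intro e he G _ v hv
    have H := (hR G _ v).1 hv
    obtain ⟨_, h1⟩ := reach_inst c (halts_reach c [e] ((hc e).1 he)) (s0_mem_fs c)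
    have h2 := commute_of_reach H _ h1
    have h3 : (yv [e]) = Pi.single K'.main ((inp e : ℕ) : ℤ) := rfl
    simp only [h3] at h2
    rw [XX_single, zpow_natCast] at h2
    exact h2
  · intro e he
    obtain ⟨G, hG, val, H, h1⟩ := exists_model (rf c) h (fun i => rule_c i.1)
      (fun i => rule_c' i.1) (Dh c) (by
        change (eval stepF (none, 0)).Dom
        rw [Part.dom_iff_mem]
        exact ⟨(none, 0), mem_eval.2 ⟨Relation.ReflTransGen.refl, rfl⟩⟩) (Dh_rule c)
    have h2 := h1 s K'.main (inp e) (by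
      intro hmem
      have h3 : (eval stepF (s0 c, yv [e])).Dom := hmem
      rw [halts_dom] at h3
      exact (hc e).2 he h3)
    let v : ℕ → G := fun n => if hn : n < m then val (eqv.symm ⟨n, hn⟩) else 1
    have hv : ∀ g, v (num g) = val g := by
      intro g
      simp only [v, hnum g, dif_pos]
      congr 1
      exact eqv.symm_apply_apply g
    refine ⟨G, hG, v, (hR G hG v).2 ?_, ?_⟩
    · simpa only [hv] using H
    · simpa only [hv] using h2

end Pool.Agent.W_MP_b13100_lc
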