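import Mathlib

/-! Free subgroups generated by elements `a⁻ʲ γⱼ aʲ`, by ping-pong on an explicit set. -/

namespace Pool.Agent.W_MP_b13100_lc

section

variable {Q : Type} [Group Q]

/-- nontrivial elements times nonzero integers -/
abbrev Blk (Q : Type) [Group Q] : Type := {q : Q // q ≠ 1} × {z : ℤ // z ≠ 0}

/-- infinite sequences -/
abbrev Sq (Q : Type) [Group Q] : Type := ℕ → Blk Q

/-- the set acted on -/
abbrev Al (Q : Type) [Group Q] : Type := ℤ × Sq Q

open Classical in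
/-- `Al Q` as a free `Q`-set -/
noncomputable def split (Q : Type) [Group Q] : Al Q ≃ Q × ({z : ℤ // z ≠ 0} × Sq Q) where
  toFun x := if h : x.1 = 0 then ((x.2 0).1.1, ((x.2 0).2, fun n => x.2 (n + 1)))
    else (1, (⟨x.1, h⟩, x.2))
  invFun y := if h : y.1 = 1 then (y.2.1.1, y.2.2)
    else (0, fun n => Nat.casesOn n (⟨y.1, h⟩, y.2.1) y.2.2)
  left_inv := by
    rintro ⟨z, f⟩
    by_cases h : z = 0
    · subst h
      have h1 : ¬ ((f 0).1.1 : Q) = 1 := (f 0).1.2
      simp only [dif_pos]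
      rw [dif_neg h1]
      refine Prod.ext rfl (funext fun n => ?_)
      cases n <;> rfl
    · simp only [h, dif_neg, not_false_eq_true, dif_pos]
  right_inv := by
    rintro ⟨q, ⟨z, hz⟩, f⟩
    by_cases h : q = 1
    · subst h
      simp [hz]
    · simp [h]

/-- the action of `Q` -/
noncomputable def act (Q : Type) [Group Q] : Q →* Equiv.Perm (Al Q) where
  toFun q := ((split Q).trans ((Equiv.mulLeft q).prodCongr (Equiv.refl _))).trans (split Q).symm
  map_one' := by
    ext1 x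
    simp
  map_mul' q r := by
    ext1 x
    simp only [Equiv.coe_trans, Equiv.Perm.coe_mul, Function.comp_apply,
      Equiv.apply_symm_apply]
    congr 1
    simp [Equiv.prodCongr_apply, Prod.map]

/-- the shift -/
def sh (Q : Type) [Group Q] : Equiv.Perm (Al Q) := (Equiv.addRight (1 : ℤ)).prodCongr (Equiv.refl _)

theorem sh_apply (x : Al Q) : (sh Q) x = (x.1 + 1, x.2) := rfl

theorem sh_inv_apply (x : Al Q) : (sh Q)⁻¹ x = (x.1 - 1, x.2) := by
  rw [Equiv.Perm.inv_eq_iff_eq, sh_apply]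
  simp

theorem sh_zpow_apply (k : ℤ) (x : Al Q) : (sh Q ^ k) x = (x.1 + k, x.2) := by
  induction k using Int.induction_on generalizing x with
  | zero => simp
  | succ i ih =>
    rw [zpow_add, zpow_one, Equiv.Perm.mul_apply, sh_apply, ih]
    simp only [Prod.mk.injEq, and_true]
    ring
  | pred i ih =>
    rw [sub_eq_add_neg, zpow_add, zpow_neg_one, Equiv.Perm.mul_apply, sh_inv_apply, ih]
    simp only [Prod.mk.injEq, and_true]
    ring

theorem act_fst {q : Q} (hq : q ≠ 1) {x : Al Q} (hx : x.1 ≠ 0) : (act Q q x).1 = 0 := by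
  have h1 : split Q x = (1, (⟨x.1, hx⟩, x.2)) := by simp [split, hx]
  have h2 : act Q q x = (split Q).symm (q * 1, (⟨x.1, hx⟩, x.2)) := by
    simp [act, h1]
  rw [h2]
  simp [split, hq]

theorem act_injective [Nontrivial Q] : Function.Injective (act Q) := by
  rw [injective_iff_map_eq_one]
  intro q hq
  by_contra hne
  have h0 : Nonempty (Blk Q) := ⟨(⟨q, hne⟩, ⟨1, one_ne_zero⟩)⟩
  obtain ⟨b⟩ := h0
  have := act_fst hne (x := ((1 : ℤ), fun _ => b)) (by simp)
  rw [hq] at this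
  simp at this

/-- the property used in the ping-pong argument -/
def Good (γ : Equiv.Perm (Al Q)) : Prop :=
  ∀ n : ℤ, n ≠ 0 → ∀ x : Al Q, x.1 ≠ 0 → ((γ ^ n) x).1 = 0

theorem good_act {q : Q} (hq : ∀ n : ℤ, n ≠ 0 → q ^ n ≠ 1) : Good (act Q q) := by
  intro n hn x hx
  rw [← map_zpow]
  exact act_fst (hq n hn) hx

theorem conj_zpow' {G : Type*} [Group G] (a b : G) (n : ℤ) :
    (a⁻¹ * b * a) ^ n = a⁻¹ * b ^ n * a := by
  have := conj_zpow (a := a⁻¹) (b := b) (i := n)
  rwa [inv_inv] at this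

theorem good_conj {q : Q} (hq : q ≠ 1) : Good ((act Q q)⁻¹ * sh Q * act Q q) := by
  intro n hn x hx
  rw [conj_zpow', Equiv.Perm.mul_apply, Equiv.Perm.mul_apply, ← map_inv]
  apply act_fst (inv_ne_one.2 hq)
  rw [sh_zpow_apply]
  have := act_fst hq hx
  simp [this, hn]

/-- conjugates of `γ j` by powers of the shift -/
noncomputable def lam {N : ℕ} (γ : Fin N → Equiv.Perm (Al Q)) (j : Fin N) : Equiv.Perm (Al Q) :=
  (sh Q ^ (j : ℤ))⁻¹ * γ j * sh Q ^ (j : ℤ)

theorem lam_zpow_apply {N : ℕ} (γ : Fin N → Equiv.Perm (Al Q)) (j : Fin N) (n : ℤ) (x : Al Q) :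
    (lam γ j ^ n) x = (sh Q ^ (-(j : ℤ))) ((γ j ^ n) ((sh Q ^ (j : ℤ)) x)) := by
  rw [lam, conj_zpow', Equiv.Perm.mul_apply, Equiv.Perm.mul_apply, zpow_neg]

open Pointwise in
theorem free_of_good {N : ℕ} (hN : 3 ≤ N) (hS : Nonempty (Sq Q)) (γ : Fin N → Equiv.Perm (Al Q))
    (hγ : ∀ j, Good (γ j)) :
    Function.Injective (Monoid.CoprodI.lift
      (fun j : Fin N => zpowersHom (Equiv.Perm (Al Q)) (lam γ j))) := by
  have : Nontrivial (Fin N) := Fin.nontrivial_iff_two_le.2 (by omega)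
  apply Monoid.CoprodI.lift_injective_of_ping_pong _ _
    (fun j : Fin N => {x : Al Q | x.1 = -(j : ℤ)})
  · intro j
    obtain ⟨s⟩ := hS
    exact ⟨(-(j : ℤ), s), rfl⟩
  · intro i j hij
    rw [Function.onFun, Set.disjoint_left]
    intro x hx hx'
    change x.1 = -(i : ℤ) at hx
    change x.1 = -(j : ℤ) at hx'
    apply hij
    ext
    omega
  · intro i j hij h hh
    rintro _ ⟨x, hx, rfl⟩
    change x.1 = -(j : ℤ) at hx
    change (((zpowersHom (Equiv.Perm (Al Q)) (lam γ i)) h) x).1 = -(i : ℤ)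
    have hn : Multiplicative.toAdd h ≠ 0 := by
      intro h0
      exact hh (Multiplicative.toAdd.injective h0)
    rw [zpowersHom_apply, lam_zpow_apply, sh_zpow_apply]
    have h2 : ((sh Q ^ (i : ℤ)) x).1 ≠ 0 := by
      rw [sh_zpow_apply]
      simp only [hx]
      intro h3
      apply hij
      ext
      omega
    rw [hγ i _ hn _ h2]
    simp
  · left
    simpa using hN

end

end Pool.Agent.W_MP_b13100_lc
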